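import Pool.Agent.TH17.Loop

set_option autoImplicit false

open Polynomial

namespace Pool.Agent.TH17.FF

section exist

variable {k : Type} [Field k]

theorem coeffs_zero {p : k[X]} (hdeg : p.natDegree = 4) (e3 e2 e1 e0 : k)
    (h : p ∣ C e3 * X ^ 3 + C e2 * X ^ 2 + C e1 * X + C e0) :
    e3 = 0 ∧ e2 = 0 ∧ e1 = 0 ∧ e0 = 0 := by
  have h1 : C e3 * X ^ 3 + C e2 * X ^ 2 + C e1 * X + C e0 = 0 := by
    by_contra hne
    have h2 := natDegree_le_of_dvd h hne
    have h3 : (C e3 * X ^ 3 + C e2 * X ^ 2 + C e1 * X + C e0 : k[X]).natDegree ≤ 3 := by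
      compute_degree
    omega
  refine ⟨?_, ?_, ?_, ?_⟩
  · have := congrArg (fun q => coeff q 3) h1
    simpa [coeff_X, coeff_C] using this
  · have := congrArg (fun q => coeff q 2) h1
    simpa [coeff_X, coeff_C] using this
  · have := congrArg (fun q => coeff q 1) h1
    simpa [coeff_X, coeff_C] using this
  · have := congrArg (fun q => coeff q 0) h1
    simpa [coeff_X, coeff_C] using this

theorem exists_loopData [Finite k] (hk : 3 ≤ Nat.card k) {p : k[X]} (hm : p.Monic)
    (hdeg : p.natDegree = 4) : ∃ t t' : k[X], LoopData p t t' := by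
  classical
  have _ : Fintype k := Fintype.ofFinite k
  rw [Nat.card_eq_fintype_card] at hk
  obtain ⟨a3, a2, a1, a0, hp⟩ : ∃ a3 a2 a1 a0 : k,
      p = X ^ 4 + C a3 * X ^ 3 + C a2 * X ^ 2 + C a1 * X + C a0 := by
    refine ⟨p.coeff 3, p.coeff 2, p.coeff 1, p.coeff 0, ?_⟩
    conv_lhs => rw [hm.as_sum, hdeg]
    simp [Finset.sum_range_succ]
    ring
  -- the first parameter
  obtain ⟨x, hx⟩ : ∃ x : k, ¬ (2 * x = a3 ∧ a1 = x * (a2 - x ^ 2)) := by
    by_cases h4 : 4 ≤ Fintype.card k
    · have hf0 : (X ^ 3 - C a2 * X + C a1 : k[X]) ≠ 0 := by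
        intro h
        have := congrArg (fun q => coeff q 3) h
        simp [coeff_X, coeff_C] at this
      have hfd : (X ^ 3 - C a2 * X + C a1 : k[X]).natDegree ≤ 3 := by compute_degree
      by_contra hc
      push Not at hc
      have h5 : (Finset.univ : Finset k) ⊆ (X ^ 3 - C a2 * X + C a1 : k[X]).roots.toFinset := by
        intro y _
        rw [Multiset.mem_toFinset, mem_roots hf0, IsRoot.def]
        simp only [eval_add, eval_sub, eval_pow, eval_X, eval_mul, eval_C]
        rw [(hc y).2]
        ring
      have h6 := Finset.card_le_card h5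
      have h7 := Multiset.toFinset_card_le (X ^ 3 - C a2 * X + C a1 : k[X]).roots
      have h8 := card_roots' (X ^ 3 - C a2 * X + C a1 : k[X])
      rw [Finset.card_univ] at h6
      omega
    · have h3 : Fintype.card k = 3 := by omega
      have h30 : (3 : k) = 0 := by
        have := FiniteField.cast_card_eq_zero k
        rw [h3] at this
        exact_mod_cast this
      by_contra hc
      push Not at hc
      have e0 := (hc 0).1
      have e1 := (hc 1).1
      have : (1 : k) = 0 := by linear_combination h30 - e1 + e0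
      exact one_ne_zero this
  -- the second parameter
  obtain ⟨y, hy1, hy2⟩ : ∃ y : k, y ≠ x ∧ x + y ≠ a3 := by
    by_contra hc
    push Not at hc
    have h5 : (Finset.univ : Finset k) ⊆ {x, a3 - x} := by
      intro y _
      rw [Finset.mem_insert, Finset.mem_singleton]
      by_cases h : y = x
      · exact Or.inl h
      · right
        rw [← hc y h]
        ring
    have h6 := Finset.card_le_card h5
    rw [Finset.card_univ] at h6
    have h7 : ({x, a3 - x} : Finset k).card ≤ 2 := Finset.card_le_two
    omega
  have hyx : y - x ≠ 0 := sub_ne_zero.2 hy1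
  have hsub : (X ^ 2 + C y * X) - (X ^ 2 + C x * X) = C (y - x) * (X : k[X]) := by
    rw [C_sub]
    ring
  refine ⟨X ^ 2 + C x * X, X ^ 2 + C y * X, ?_, ?_, ?_, ?_, ?_, ?_, ?_⟩
  · rw [hsub, hdeg]
    compute_degree
    all_goals norm_num
  · have e : (C (y - x) * (X : k[X])) * (p - (X ^ 2 + C x * X) * (X ^ 2 + C y * X)) =
        (C (y - x) * X) * (C (a3 - x - y) * X ^ 3 + C (a2 - x * y) * X ^ 2 + C a1 * X + C a0) := by
      rw [hp]
      simp only [C_sub, C_mul]
      ring
    rw [hsub, hdeg, e]
    compute_degree
    all_goals norm_num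
  · rw [hsub, hdeg]
    compute_degree
    all_goals norm_num
  · rw [hsub, hdeg]
    compute_degree
    all_goals norm_num
  · rw [hsub]
    intro h
    have h1 : (C (y - x) * (X : k[X])) ≠ 0 := mul_ne_zero (C_ne_zero.2 hyx) X_ne_zero
    have h2 := natDegree_le_of_dvd h h1
    have h3 : (C (y - x) * (X : k[X])).natDegree ≤ 1 := by compute_degree
    omega
  · intro a b c d hdet hdvd
    have h1 : p ∣ C (c * (a3 - x - y)) * X ^ 3 + C (a - d - c * x * y + c * a2) * X ^ 2 +
        C (a * x - d * y + c * a1) * X + C (b + c * a0) := by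
      have e : C (c * (a3 - x - y)) * X ^ 3 + C (a - d - c * x * y + c * a2) * X ^ 2 +
          C (a * x - d * y + c * a1) * X + C (b + c * a0) =
          ((C a * (X ^ 2 + C x * X) + C b) - (X ^ 2 + C y * X) * (C c * (X ^ 2 + C x * X) + C d)) +
            C c * p := by
        rw [hp]
        simp only [C_sub, C_mul, C_add]
        ring
      rw [e]
      exact dvd_add hdvd (Dvd.intro_left _ rfl)
    obtain ⟨e3, e2, e1, e0⟩ := coeffs_zero hdeg _ _ _ _ h1
    have hc : c = 0 := by
      rcases mul_eq_zero.1 e3 with h | h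
      · exact h
      · exfalso
        apply hy2
        linear_combination -h
    rw [hc] at e2 e1
    have had : a = d := by linear_combination e2
    have ha : a * (x - y) = 0 := by
      rw [← had] at e1
      linear_combination e1
    have ha0 : a = 0 := by
      rcases mul_eq_zero.1 ha with h | h
      · exact h
      · exfalso
        apply hyx
        linear_combination -h
    apply hdet
    rw [ha0, hc]
    ring
  · intro a b c d hdet hdvd
    have h1 : p ∣ C (c * (a3 - x - x)) * X ^ 3 + C (a - d - c * x * x + c * a2) * X ^ 2 +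
        C (a * x - d * x + c * a1) * X + C (b + c * a0) := by
      have e : C (c * (a3 - x - x)) * X ^ 3 + C (a - d - c * x * x + c * a2) * X ^ 2 +
          C (a * x - d * x + c * a1) * X + C (b + c * a0) =
          ((C a * (X ^ 2 + C x * X) + C b) - (X ^ 2 + C x * X) * (C c * (X ^ 2 + C x * X) + C d)) +
            C c * p := by
        rw [hp]
        simp only [C_sub, C_mul, C_add]
        ring
      rw [e]
      exact dvd_add hdvd (Dvd.intro_left _ rfl)
    obtain ⟨e3, e2, e1, e0⟩ := coeffs_zero hdeg _ _ _ _ h1
    have hc : c = 0 := by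
      by_contra hc0
      apply hx
      have f3 : a3 - x - x = 0 := (mul_eq_zero.1 e3).resolve_left hc0
      constructor
      · linear_combination -f3
      · have f1 : c * (a1 - x * (a2 - x ^ 2)) = 0 := by
          linear_combination e1 - x * e2
        have := (mul_eq_zero.1 f1).resolve_left hc0
        linear_combination this
    rw [hc] at e2 e0
    refine ⟨by linear_combination e0, hc, by linear_combination e2⟩

end exist

end Pool.Agent.TH17.FF
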