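import Pool.Agent.TH17.Cyclic

set_option autoImplicit false

open CategoryTheory

namespace Pool.Agent.TH17.Coh

variable {l : ℕ} {G : Type} [Group G]

/-- restriction of a cochain to a subgroup -/
def res (S : Subgroup G) {n : ℕ} (f : Cochain l G n) : Cochain l S n :=
  fun g => f (fun i => (g i : G))

theorem res_diff (S : Subgroup G) {n : ℕ} (f : Cochain l G n) :
    diff l S n (res S f) = res S (diff l G n f) := by
  refine cochain_ext fun x => ?_
  have h1 : ∀ (m : ℕ) (f' : Cochain l G m) (y : ℕ → S),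
      ev (res S f') y = ev f' (fun i => (y i : G)) := fun m f' y => rfl
  rw [ev_diff, h1 (n + 1), ev_diff, h1 n]
  congr 1
  refine Finset.sum_congr rfl fun j _ => ?_
  rw [h1]
  congr 2
  funext i
  unfold ct
  split_ifs <;> simp

theorem res_mem (S : Subgroup G) {n : ℕ} (f : Cochain l G n) (hf : f ∈ Cocycle l G n) :
    res S f ∈ Cocycle l S n := by
  rw [mem_cocycle_iff] at hf ⊢
  rw [res_diff, hf]
  rfl

theorem not_free [Fact l.Prime] (S : Subgroup G) [Finite S] [IsCyclic S] (h : G ⧸ S → ℤ)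
    (hfin : AlmostInv h) (g₀ : G) (hg₀ : J h l 1 g₀ (fun _ => 1) ≠ 0)
    (c₁ : Cocycle l G 2) (c₂ : Cocycle l G 4)
    [Module (MvPolynomial (Fin 2) (ZMod l)) (TotalCohomology l G)]
    (hC : ∀ (a : ZMod l) (m : TotalCohomology l G),
      (MvPolynomial.C a : MvPolynomial (Fin 2) (ZMod l)) • m = a • m)
    (h₁ : ∀ m : TotalCohomology l G,
      (MvPolynomial.X 0 : MvPolynomial (Fin 2) (ZMod l)) • m = cupTotal c₁ m)
    (h₂ : ∀ m : TotalCohomology l G,
      (MvPolynomial.X 1 : MvPolynomial (Fin 2) (ZMod l)) • m = cupTotal c₂ m) :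
    ¬ Module.Free (MvPolynomial (Fin 2) (ZMod l)) (TotalCohomology l G) := by
  intro hfree
  -- the class of degree one
  let x : Cocycle l G 1 := ⟨xco h l, xco_cocycle h hfin⟩
  let m : TotalCohomology l G := incl l G 1 (mkClass l G 1 x)
  have hm : m ≠ 0 := by
    intro h0
    have h1 : mkClass l G 1 x = 0 := by
      apply incl_injective 1
      rw [map_zero]
      exact h0
    rw [mkClass_eq_zero] at h1
    obtain ⟨b, hb⟩ := h1
    apply hg₀
    have h2 := congrFun hb (fun _ => g₀)
    rw [diff_apply, Fin.sum_univ_one] at h2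
    have h3 : (fun i : Fin 0 => (fun _ : Fin 1 => g₀) i.succ) =
      Fin.contractNth (0 : Fin 1) (· * ·) (fun _ : Fin 1 => g₀) := by
      funext i
      exact i.elim0
    rw [h3] at h2
    have h4 : (x : Cochain l G 1) (fun _ => g₀) = 0 := by
      rw [← h2]
      simp
    exact h4
  -- the relation
  let f : Cocycle l S 4 := ⟨res S (cup (c₁ : Cochain l G 2) (c₁ : Cochain l G 2)),
    res_mem S _ (cup_mem_cocycle c₁ 2 _ c₁.2)⟩
  let g : Cocycle l S 4 := ⟨res S (c₂ : Cochain l G 4), res_mem S _ c₂.2⟩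
  obtain ⟨a, b, hab, β, hβ⟩ := exists_dep 3 ⟨2, rfl⟩ f g
  let c : Cocycle l G 4 := a • ⟨cup (c₁ : Cochain l G 2) (c₁ : Cochain l G 2),
    cup_mem_cocycle c₁ 2 _ c₁.2⟩ + b • c₂
  have hcx := cup_xco h hfin c β (by
    intro g
    rw [hβ]
    rfl)
  -- the polynomial
  let p : MvPolynomial (Fin 2) (ZMod l) :=
    MvPolynomial.C a * MvPolynomial.X 0 ^ 2 + MvPolynomial.C b * MvPolynomial.X 1
  have hp : p ≠ 0 := by
    intro h0
    have e1 : MvPolynomial.coeff (Finsupp.single 0 2) p = a := by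
      simp [p, MvPolynomial.coeff_C_mul, MvPolynomial.coeff_X_pow, MvPolynomial.coeff_X,
        Finsupp.single_eq_single_iff]
    have e2 : MvPolynomial.coeff (Finsupp.single 1 1) p = b := by
      simp [p, MvPolynomial.coeff_C_mul, MvPolynomial.coeff_X_pow, MvPolynomial.coeff_X,
        Finsupp.single_eq_single_iff]
    rw [h0, MvPolynomial.coeff_zero] at e1 e2
    rcases hab with h | h
    · exact h e1.symm
    · exact h e2.symm
  have hpm : p • m = 0 := by
    have e1 : p • m = a • cupTotal c₁ (cupTotal c₁ m) + b • cupTotal c₂ m := by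
      simp only [p]
      rw [add_smul, mul_smul, mul_smul, pow_two, mul_smul, hC, hC, h₁, h₁, h₂]
    rw [e1]
    have e2 : cupTotal c₁ m = incl l G (2 + 1) (mkClass l G (2 + 1) (cupZ c₁ 1 x)) :=
      cupTotal_incl c₁ 1 x
    have e3 : cupTotal c₂ m = incl l G 5 (mkClass l G 5 (cupZ c₂ 1 x)) := cupTotal_incl c₂ 1 x
    have e4 : cupTotal c₁ (cupTotal c₁ m) =
        incl l G 5 (mkClass l G 5 (cupZ c₁ 3 (cupZ c₁ 1 x))) := by
      rw [e2]
      exact cupTotal_incl c₁ 3 _
    have e7 : ∀ u v : Cocycle l G 5, a • incl l G 5 (mkClass l G 5 u) +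
        b • incl l G 5 (mkClass l G 5 v) = incl l G 5 (mkClass l G 5 (a • u + b • v)) := by
      intro u v
      rw [map_add, map_add, map_smul, map_smul, map_smul, map_smul]
    rw [e4, e3]
    refine (e7 _ _).trans ?_
    have e5 : mkClass l G 5 (a • (cupZ c₁ 3 (cupZ c₁ 1 x) : Cocycle l G 5) +
        b • (cupZ c₂ 1 x : Cocycle l G 5)) = 0 := by
      rw [mkClass_eq_zero]
      have e6 : cup (c : Cochain l G 4) (xco h l) =
          ((a • (cupZ c₁ 3 (cupZ c₁ 1 x) : Cocycle l G 5) +
            b • (cupZ c₂ 1 x : Cocycle l G 5) : Cocycle l G 5) : Cochain l G 5) := by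
        refine cochain_ext (n := 5) fun y => ?_
        have r1 : ev (cup (c : Cochain l G 4) (xco h l)) y =
            (a * (ev (c₁ : Cochain l G 2) y * ev (c₁ : Cochain l G 2) (sh 2 y)) +
              b * ev (c₂ : Cochain l G 4) y) * ev (xco h l) (sh 4 y) := by
          rw [ev_cup, ← ev_cup]
          rfl
        have r2 : ev (cup (c₁ : Cochain l G 2)
            (cup (c₁ : Cochain l G 2) (x : Cochain l G 1))) y =
            ev (c₁ : Cochain l G 2) y * (ev (c₁ : Cochain l G 2) (sh 2 y) *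
              ev (xco h l) (sh 4 y)) := by
          rw [ev_cup, ev_cup, sh_sh]
        have r3 : ev (cup (c₂ : Cochain l G 4) (x : Cochain l G 1)) y =
            ev (c₂ : Cochain l G 4) y * ev (xco h l) (sh 4 y) := ev_cup _ _ _
        refine Eq.trans r1 ?_
        change _ = a * ev (cup (c₁ : Cochain l G 2)
            (cup (c₁ : Cochain l G 2) (x : Cochain l G 1))) y +
            b * ev (cup (c₂ : Cochain l G 4) (x : Cochain l G 1)) y
        rw [r2, r3]
        ring
      rw [e6] at hcx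
      exact hcx
    rw [e5, map_zero]
  rcases smul_eq_zero.1 hpm with h | h
  · exact hp h
  · exact hm h

end Pool.Agent.TH17.Coh
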