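import Pool.Agent.TH17.Loop
import Pool.Agent.TH17.NotFree

set_option autoImplicit false

open Polynomial IsDedekindDomain WithZero
open scoped MatrixGroups

namespace Pool.Agent.TH17.FF

section almost

variable {k : Type} [Field k] {P : HeightOneSpectrum k[X]} {p t t' : k[X]}

theorem P1_sc (t : k[X]) (g : GL (Fin 2) (OKS k {some P})) (c : kˣ) :
    P1 t (g * sc k P c) ↔ P1 t g := by
  unfold P1
  rw [act_sc, act_sc, nrm_smul, nrm_smul, val_C, one_mul, one_mul]

open scoped Classical in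
/-- the orientation function on the group -/
noncomputable def hG (t : k[X]) (g : GL (Fin 2) (OKS k {some P})) : ℤ := if P1 t g then 1 else 0

theorem hG_eq_iff (t : k[X]) (g g' : GL (Fin 2) (OKS k {some P})) :
    hG t g = hG t g' ↔ (P1 t g ↔ P1 t g') := by
  unfold hG
  by_cases h1 : P1 t g <;> by_cases h2 : P1 t g' <;> simp [h1, h2]

/-- the subgroup of scalar matrices with entries in `k` -/
noncomputable def scal (k : Type) [Field k] (P : HeightOneSpectrum k[X]) :
    Subgroup (GL (Fin 2) (OKS k {some P})) := (sc k P).range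

/-- the orientation function on the cosets -/
noncomputable def hQ (t : k[X]) : GL (Fin 2) (OKS k {some P}) ⧸ scal k P → ℤ :=
  Quotient.lift (hG t) (by
    intro a b hab
    have h1 : a⁻¹ * b ∈ scal k P := QuotientGroup.leftRel_apply.1 hab
    obtain ⟨c, hc⟩ := h1
    have h2 : b = a * sc k P c := by rw [hc]; simp
    rw [h2, hG_eq_iff, P1_sc])

theorem hQ_mk (t : k[X]) (g : GL (Fin 2) (OKS k {some P})) :
    hQ t (QuotientGroup.mk g : GL (Fin 2) (OKS k {some P}) ⧸ scal k P) = hG t g := rfl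

theorem hQ_smul_mk (t : k[X]) (a g : GL (Fin 2) (OKS k {some P})) :
    hQ t (a • (QuotientGroup.mk g : GL (Fin 2) (OKS k {some P}) ⧸ scal k P)) =
      hG t (a * g) := rfl

theorem finite_entries [Finite k] (hP : P.asIdeal = Ideal.span {p}) (hp : p ≠ 0) (m : ℕ) :
    {g : GL (Fin 2) (OKS k {some P}) |
      ∀ i j, P.valuation (RatFunc k) (mat g i j) ≤ exp (m : ℤ)}.Finite := by
  have h1 := finite_bounded hP hp m
  have h2 : (Set.pi Set.univ (fun _ : Fin 2 => Set.pi Set.univ (fun _ : Fin 2 =>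
      {x : RatFunc k | x ∈ OKS k {some P} ∧ P.valuation (RatFunc k) x ≤ exp (m : ℤ)}))).Finite :=
    Set.Finite.pi fun _ => Set.Finite.pi fun _ => h1
  refine Set.Finite.of_finite_image (f := fun g => (mat g : Fin 2 → Fin 2 → RatFunc k))
    (h2.subset ?_) (mat_injective.injOn)
  rintro _ ⟨g, hg, rfl⟩ i _ j _
  exact ⟨mat_mem g i j, hg i j⟩

theorem finite_change [Finite k] (hP : P.asIdeal = Ideal.span {p}) (hp : p ≠ 0) (t : k[X])
    (g₀ : GL (Fin 2) (OKS k {some P})) :
    {g : GL (Fin 2) (OKS k {some P}) | ¬ (P1 t (g₀⁻¹ * g) ↔ P1 t g)}.Finite := by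
  set v := P.valuation (RatFunc k) with hv
  -- a bound for the entries
  obtain ⟨m, hm⟩ : ∃ m : ℕ, (∀ i j, v (mat g₀ i j) ≤ exp (m : ℤ)) ∧
      (∀ i j, v (mat g₀⁻¹ i j) ≤ exp (m : ℤ)) := by
    have h1 : ∀ x : ℤᵐ⁰, ∃ m : ℕ, x ≤ exp (m : ℤ) := by
      intro x
      rcases eq_or_ne x 0 with rfl | hx
      · exact ⟨0, zero_le⟩
      · obtain ⟨n, rfl⟩ := eq_exp_of_ne_zero hx
        refine ⟨n.toNat, ?_⟩
        rw [exp_le_exp]
        exact Int.self_le_toNat n
    choose f hf using h1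
    refine ⟨∑ i, ∑ j, (f (v (mat g₀ i j)) + f (v (mat g₀⁻¹ i j))), ?_, ?_⟩
    · intro i j
      refine (hf _).trans ?_
      rw [exp_le_exp]
      norm_cast
      calc f (v (mat g₀ i j)) ≤ f (v (mat g₀ i j)) + f (v (mat g₀⁻¹ i j)) := Nat.le_add_right _ _
        _ ≤ ∑ j, (f (v (mat g₀ i j)) + f (v (mat g₀⁻¹ i j))) :=
          Finset.single_le_sum (f := fun j => f (v (mat g₀ i j)) + f (v (mat g₀⁻¹ i j)))
            (fun _ _ => Nat.zero_le _) (Finset.mem_univ j)
        _ ≤ _ := Finset.single_le_sum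
            (f := fun i => ∑ j, (f (v (mat g₀ i j)) + f (v (mat g₀⁻¹ i j))))
            (fun _ _ => Nat.zero_le _) (Finset.mem_univ i)
    · intro i j
      refine (hf _).trans ?_
      rw [exp_le_exp]
      norm_cast
      calc f (v (mat g₀⁻¹ i j)) ≤ f (v (mat g₀ i j)) + f (v (mat g₀⁻¹ i j)) :=
            Nat.le_add_left _ _
        _ ≤ ∑ j, (f (v (mat g₀ i j)) + f (v (mat g₀⁻¹ i j))) :=
          Finset.single_le_sum (f := fun j => f (v (mat g₀ i j)) + f (v (mat g₀⁻¹ i j)))
            (fun _ _ => Nat.zero_le _) (Finset.mem_univ j)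
        _ ≤ _ := Finset.single_le_sum
            (f := fun i => ∑ j, (f (v (mat g₀ i j)) + f (v (mat g₀⁻¹ i j))))
            (fun _ _ => Nat.zero_le _) (Finset.mem_univ i)
  set Cm : ℤᵐ⁰ := exp (m : ℤ) with hCm
  have hC1 : 1 ≤ Cm := by
    rw [hCm, ← exp_zero, exp_le_exp]
    positivity
  have hinv1 : mat g₀ * mat g₀⁻¹ = 1 := by rw [← mat_mul, mul_inv_cancel, mat_one]
  have hinv2 : mat g₀⁻¹ * mat g₀ = 1 := by rw [← mat_mul, inv_mul_cancel, mat_one]
  have hwedge : ∀ g : GL (Fin 2) (OKS k {some P}),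
      v (wedge (act (mat g) (u1 t)) (act (mat g) (u2 k))) = 1 := by
    intro g
    rw [← val_det hP hp g, ← Valuation.map_neg]
    congr 1
    simp only [wedge, act, u1, u2]
    ring
  -- the bound for the norms of the columns
  have hbound : ∀ g : GL (Fin 2) (OKS k {some P}), ¬ (P1 t (g₀⁻¹ * g) ↔ P1 t g) →
      nrm v (act (mat g) (u1 t)) ≤ Cm ^ 3 ∧ nrm v (act (mat g) (u2 k)) ≤ Cm ^ 3 := by
    intro g hg
    by_cases h1 : P1 t g
    · have h2 : ¬ P1 t (g₀⁻¹ * g) := fun h => hg ⟨fun _ => h1, fun _ => h⟩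
      unfold P1 at h1 h2
      rw [mat_mul, act_mul, act_mul, not_lt] at h2
      have h3 := bounded_of_change (v := v) (mat g₀⁻¹) (mat g₀) hinv1 Cm hC1 hm.2 hm.1 _ _
        (hwedge g) h1 h2
      have h4 : Cm ^ 2 ≤ Cm ^ 3 := pow_le_pow_right₀ hC1 (by norm_num)
      exact ⟨h1.le.trans (h3.trans h4), h3.trans h4⟩
    · have h2 : P1 t (g₀⁻¹ * g) := by
        by_contra h
        exact hg ⟨fun h' => absurd h' h, fun h' => absurd h' h1⟩
      unfold P1 at h1 h2
      rw [not_lt] at h1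
      have e1 : ∀ w, act (mat g) w = act (mat g₀) (act (mat (g₀⁻¹ * g)) w) := by
        intro w
        rw [← act_mul, ← mat_mul, mul_inv_cancel_left]
      rw [e1, e1] at h1
      have h3 := bounded_of_change (v := v) (mat g₀) (mat g₀⁻¹) hinv2 Cm hC1 hm.1 hm.2 _ _
        (hwedge (g₀⁻¹ * g)) h2 h1
      have h5 : ∀ w, nrm v (act (mat (g₀⁻¹ * g)) w) ≤ Cm ^ 2 →
          nrm v (act (mat g) w) ≤ Cm ^ 3 := by
        intro w hw
        rw [e1]
        refine (act_bound (mat g₀) Cm hm.1 _).trans ?_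
        calc Cm * nrm v (act (mat (g₀⁻¹ * g)) w) ≤ Cm * Cm ^ 2 := by gcongr
          _ = Cm ^ 3 := (pow_succ' Cm 2).symm
      exact ⟨h5 _ (h2.le.trans h3), h5 _ h3⟩
  -- conclusion
  refine (finite_entries hP hp (3 * m)).subset ?_
  intro g hg
  obtain ⟨h1, h2⟩ := hbound g hg
  have hC3 : Cm ^ 3 = exp ((3 * m : ℕ) : ℤ) := by
    rw [hCm, ← exp_nsmul]
    congr 1
  rw [hC3] at h1 h2
  have e1 : act (mat g) (u1 t) = (mat g 0 0 * algebraMap k[X] (RatFunc k) t + mat g 0 1,
      mat g 1 0 * algebraMap k[X] (RatFunc k) t + mat g 1 1) := by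
    simp [act, u1]
  have e2 : act (mat g) (u2 k) = (mat g 0 0, mat g 1 0) := by
    simp [act, u2]
  rw [e1] at h1
  rw [e2] at h2
  have h3 := max_le_iff.1 h1
  have h4 := max_le_iff.1 h2
  simp only at h3 h4
  have hT : v (algebraMap k[X] (RatFunc k) t) ≤ 1 := val_poly_le t
  have h5 : ∀ i, v (mat g i 0) ≤ exp ((3 * m : ℕ) : ℤ) := by
    intro i
    fin_cases i
    · exact h4.1
    · exact h4.2
  have h6 : ∀ i, v (mat g i 0 * algebraMap k[X] (RatFunc k) t + mat g i 1) ≤
      exp ((3 * m : ℕ) : ℤ) := by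
    intro i
    fin_cases i
    · exact h3.1
    · exact h3.2
  have h7 : ∀ i, v (mat g i 1) ≤ exp ((3 * m : ℕ) : ℤ) := by
    intro i
    have e3 : mat g i 1 = (mat g i 0 * algebraMap k[X] (RatFunc k) t + mat g i 1) -
      mat g i 0 * algebraMap k[X] (RatFunc k) t := by ring
    rw [e3]
    refine (Valuation.map_sub _ _ _).trans (max_le (h6 i) ?_)
    rw [map_mul]
    calc v (mat g i 0) * v (algebraMap k[X] (RatFunc k) t) ≤ exp ((3 * m : ℕ) : ℤ) * 1 := by
          gcongr
          exact h5 i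
      _ = _ := mul_one _
  intro i j
  fin_cases j
  · exact h5 i
  · exact h7 i

theorem almost [Finite k] (hP : P.asIdeal = Ideal.span {p}) (hp : p ≠ 0) (t : k[X]) :
    Coh.AlmostInv (hQ (P := P) t) := by
  intro g
  refine ((finite_change hP hp t g).image (fun g => QuotientGroup.mk g)).subset ?_
  intro y hy
  induction y using QuotientGroup.induction_on with
  | H z =>
    refine ⟨z, ?_, rfl⟩
    intro h
    apply hy
    rw [hQ_smul_mk, hQ_mk, hG_eq_iff]
    exact h

theorem J_loop [Finite k] (l : ℕ) [Fact l.Prime] (hP : P.asIdeal = Ideal.span {p}) (hp : p ≠ 0)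
    (D : LoopData p t t') :
    Coh.J (hQ (P := P) t) l 1 (loopEl hP hp D) (fun _ => 1) ≠ 0 := by
  unfold Coh.J
  rw [finsum_eq_single _ (QuotientGroup.mk (loopEl hP hp D))]
  · rw [hQ_smul_mk, hQ_smul_mk, inv_mul_cancel, inv_one, one_mul]
    have h1 : hG (P := P) t 1 = 0 := by
      unfold hG
      rw [if_neg (not_P1_one t)]
    have h2 : hG (P := P) t (loopEl hP hp D) = 1 := by
      unfold hG
      rw [if_pos (P1_loopEl hP hp D)]
    rw [h1, h2]
    simp
  · intro y hy
    induction y using QuotientGroup.induction_on with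
    | H z =>
      have h1 : hG t ((loopEl hP hp D)⁻¹ * z) = hG t z := by
        rw [hG_eq_iff]
        by_contra h
        obtain ⟨c, hc⟩ := eq_of_change hP hp D z h
        apply hy
        rw [QuotientGroup.eq, hc]
        refine ⟨c⁻¹, ?_⟩
        rw [map_inv, mul_inv_rev, mul_assoc, inv_mul_cancel, mul_one]
      rw [hQ_smul_mk, hQ_smul_mk, h1, inv_one, one_mul, sub_self, Int.cast_zero, zero_mul]

instance scal_finite [Finite k] : Finite (scal k P) := by
  have : Finite kˣ := inferInstance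
  exact Set.finite_range (sc k P)

instance scal_cyclic [Finite k] : IsCyclic (scal k P) :=
  isCyclic_of_surjective (sc k P).rangeRestrict (sc k P).rangeRestrict_surjective

end almost

end Pool.Agent.TH17.FF
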