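import Mathlib

set_option autoImplicit false

open CategoryTheory

namespace Pool.Agent.TH17.Coh

/-- The trivial representation of the group `G` on `ZMod l`. -/
noncomputable abbrev Coeff (l : ℕ) (G : Type) [Group G] : Rep (ZMod l) G :=
  Rep.trivial (ZMod l) G (ZMod l)

/-- Inhomogeneous `n`-cochains of `G` with values in `ZMod l`. -/
def Cochain (l : ℕ) (G : Type) (n : ℕ) : Type := (Fin n → G) → ZMod l

noncomputable instance instAddCommGroupCochain (l : ℕ) (G : Type) (n : ℕ) :
    AddCommGroup (Cochain l G n) :=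
  (Pi.addCommGroup : AddCommGroup ((Fin n → G) → ZMod l))

noncomputable instance instModuleCochain (l : ℕ) (G : Type) (n : ℕ) :
    Module (ZMod l) (Cochain l G n) :=
  (Pi.module _ _ _ : Module (ZMod l) ((Fin n → G) → ZMod l))

theorem Cochain.add_apply {l : ℕ} {G : Type} {n : ℕ} (f f' : Cochain l G n) (g : Fin n → G) :
    (f + f') g = f g + f' g := rfl

theorem Cochain.zero_apply {l : ℕ} {G : Type} {n : ℕ} (g : Fin n → G) :
    (0 : Cochain l G n) g = 0 := rfl

theorem Cochain.smul_apply {l : ℕ} {G : Type} {n : ℕ} (a : ZMod l) (f : Cochain l G n)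
    (g : Fin n → G) : (a • f) g = a * f g := rfl

/-- The differential of the complex of inhomogeneous cochains of `G` with values in the trivial
representation `ZMod l` (it is the one of Mathlib). -/
noncomputable def diff (l : ℕ) (G : Type) [Group G] (n : ℕ) :
    Cochain l G n →ₗ[ZMod l] Cochain l G (n + 1) :=
  (inhomogeneousCochains.d (Coeff l G) n).hom

/-- The `n`-cocycles. -/
noncomputable def Cocycle (l : ℕ) (G : Type) [Group G] (n : ℕ) :
    Submodule (ZMod l) (Cochain l G n) := LinearMap.ker (diff l G n)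

/-- The `n`-coboundaries. -/
noncomputable def Coboundary (l : ℕ) (G : Type) [Group G] :
    (n : ℕ) → Submodule (ZMod l) (Cochain l G n)
  | 0 => ⊥
  | n + 1 => LinearMap.range (diff l G n)

/-- The `n`-coboundaries, as a submodule of the module of `n`-cocycles. -/
noncomputable def CoboundaryIn (l : ℕ) (G : Type) [Group G] (n : ℕ) :
    Submodule (ZMod l) (Cocycle l G n) := (Coboundary l G n).submoduleOf (Cocycle l G n)

/-- The cohomology group `H^n(G; ZMod l)`. -/
def Cohomology (l : ℕ) (G : Type) [Group G] (n : ℕ) : Type :=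
  Cocycle l G n ⧸ CoboundaryIn l G n

noncomputable instance instAddCommGroupCohomology (l : ℕ) (G : Type) [Group G] (n : ℕ) :
    AddCommGroup (Cohomology l G n) :=
  Submodule.Quotient.addCommGroup (CoboundaryIn l G n)

noncomputable instance instModuleCohomology (l : ℕ) (G : Type) [Group G] (n : ℕ) :
    Module (ZMod l) (Cohomology l G n) :=
  Submodule.Quotient.module (CoboundaryIn l G n)

/-- The cohomology class of a cocycle. -/
noncomputable def mkClass (l : ℕ) (G : Type) [Group G] (n : ℕ) :
    Cocycle l G n →ₗ[ZMod l] Cohomology l G n :=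
  (CoboundaryIn l G n).mkQ

theorem mkClass_eq_zero {l : ℕ} {G : Type} [Group G] {n : ℕ} (f : Cocycle l G n) :
    mkClass l G n f = 0 ↔ (f : Cochain l G n) ∈ Coboundary l G n := by
  unfold mkClass
  exact Submodule.Quotient.mk_eq_zero _

/-- The cup product of cochains:
`(a ∪ b)(g₁,…,g_{m+n}) = a(g₁,…,g_m) b(g_{m+1},…,g_{m+n})`. -/
def cup {l : ℕ} {G : Type} {m n : ℕ} (a : Cochain l G m) (b : Cochain l G n) :
    Cochain l G (m + n) :=
  fun g => a (fun i => g (Fin.castAdd n i)) * b (fun j => g (Fin.natAdd m j))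

theorem diff_apply {l : ℕ} {G : Type} [Group G] {n : ℕ} (f : Cochain l G n) (g : Fin (n + 1) → G) :
    diff l G n f g = f (fun i => g i.succ) +
      ∑ j : Fin (n + 1), (-1 : ZMod l) ^ ((j : ℕ) + 1) * f (Fin.contractNth j (· * ·) g) := by
  rfl

theorem mem_cocycle_iff {l : ℕ} {G : Type} [Group G] {n : ℕ} (f : Cochain l G n) :
    f ∈ Cocycle l G n ↔ diff l G n f = 0 := Iff.rfl

section seq

variable {l : ℕ} {G : Type}

/-- contraction at the `j`-th place of a sequence -/
def ct [Group G] (j : ℕ) (x : ℕ → G) : ℕ → G :=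
  fun i => if i < j then x i else if i = j then x i * x (i + 1) else x (i + 1)

/-- shift of a sequence -/
def sh (m : ℕ) (x : ℕ → G) : ℕ → G := fun i => x (m + i)

/-- evaluation of a cochain at the beginning of a sequence -/
def ev {n : ℕ} (f : Cochain l G n) (x : ℕ → G) : ZMod l := f (fun i => x i)

theorem ev_congr {n : ℕ} (f : Cochain l G n) {x y : ℕ → G} (h : ∀ i < n, x i = y i) :
    ev f x = ev f y := by
  unfold ev
  congr 1
  funext i
  exact h i i.2

theorem exists_seq [Group G] {n : ℕ} (g : Fin n → G) : ∃ x : ℕ → G, g = fun i : Fin n => x i :=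
  ⟨fun i => if h : i < n then g ⟨i, h⟩ else 1, by funext i; simp⟩

theorem contractNth_seq [Group G] {n : ℕ} (j : Fin (n + 1)) (x : ℕ → G) :
    Fin.contractNth j (· * ·) (fun i : Fin (n + 1) => x i) = fun i : Fin n => ct (j : ℕ) x i := by
  funext i
  unfold Fin.contractNth ct
  split_ifs <;> rfl

theorem ev_diff [Group G] {n : ℕ} (f : Cochain l G n) (x : ℕ → G) :
    ev (diff l G n f) x = ev f (sh 1 x) +
      ∑ j ∈ Finset.range (n + 1), (-1 : ZMod l) ^ (j + 1) * ev f (ct j x) := by
  unfold ev
  rw [diff_apply, Finset.sum_range]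
  have h1 : (fun i : Fin n => x ((i.succ : Fin (n + 1)) : ℕ)) = fun i : Fin n => sh 1 x i := by
    funext i
    simp [sh, add_comm]
  rw [h1]
  congr 1

theorem ev_cup {m n : ℕ} (a : Cochain l G m) (b : Cochain l G n) (x : ℕ → G) :
    ev (cup a b) x = ev a x * ev b (sh m x) := by
  unfold ev cup sh
  simp

theorem cochain_ext [Group G] {n : ℕ} {f f' : Cochain l G n} (h : ∀ x : ℕ → G, ev f x = ev f' x) :
    f = f' := by
  funext g
  obtain ⟨x, rfl⟩ := exists_seq g
  exact h x

theorem sh_sh (m n : ℕ) (x : ℕ → G) : sh m (sh n x) = sh (n + m) x := by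
  funext i
  simp [sh, add_assoc]

theorem ev_ct_of_le [Group G] {m : ℕ} (a : Cochain l G m) (j : ℕ) (hj : m ≤ j) (x : ℕ → G) :
    ev a (ct j x) = ev a x := by
  refine ev_congr a fun i hi => ?_
  unfold ct
  rw [if_pos (by omega)]

theorem sh_ct_of_lt [Group G] {m : ℕ} (j : ℕ) (hj : j < m) (x : ℕ → G) :
    sh m (ct j x) = sh (m + 1) x := by
  funext i
  unfold sh ct
  rw [if_neg (by omega), if_neg (by omega)]
  congr 1
  omega

theorem sh_ct_add [Group G] (m : ℕ) (j : ℕ) (x : ℕ → G) :
    sh m (ct (m + j) x) = ct j (sh m x) := by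
  funext i
  unfold sh ct
  by_cases h1 : i < j
  · rw [if_pos (by omega), if_pos h1]
  · rw [if_neg (by omega), if_neg h1]
    by_cases h2 : i = j
    · rw [if_pos (by omega), if_pos h2]
      congr 1
    · rw [if_neg (by omega), if_neg h2]
      congr 1

end seq

/-- The Leibniz rule for the cup product with a cocycle on the left. -/
theorem diff_cup {l : ℕ} {G : Type} [Group G] {m n : ℕ} (a : Cochain l G m)
    (ha : a ∈ Cocycle l G m) (b : Cochain l G n) :
    diff l G (m + n) (cup a b) =
      (-1 : ZMod l) ^ m • (cup a (diff l G n b) : Cochain l G (m + (n + 1))) := by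
  refine cochain_ext (n := m + n + 1) fun x => ?_
  have h0 : ev (diff l G m a) x = 0 := by
    rw [(mem_cocycle_iff a).1 ha]
    rfl
  rw [ev_diff, Finset.sum_range_succ, ev_ct_of_le a m le_rfl] at h0
  have h3 : ev ((-1 : ZMod l) ^ m • (cup a (diff l G n b) : Cochain l G (m + (n + 1)))) x =
      (-1 : ZMod l) ^ m * (ev a x * ev (diff l G n b) (sh m x)) := by
    rw [← ev_cup]
    rfl
  refine Eq.trans ?_ h3.symm
  rw [ev_diff, ev_cup, sh_sh, ev_diff, sh_sh, add_comm 1 m]
  refine (congrArg₂ (· + ·) rfl (Finset.sum_range_add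
    (fun j => (-1 : ZMod l) ^ (j + 1) * ev (cup a b) (ct j x)) m (n + 1))).trans ?_
  have h1 : ∀ j ∈ Finset.range m, (-1 : ZMod l) ^ (j + 1) * ev (cup a b) (ct j x) =
      (-1 : ZMod l) ^ (j + 1) * ev a (ct j x) * ev b (sh (m + 1) x) := by
    intro j hj
    rw [ev_cup, sh_ct_of_lt j (Finset.mem_range.1 hj), mul_assoc]
  have h2 : ∀ j ∈ Finset.range (n + 1),
      (-1 : ZMod l) ^ (m + j + 1) * ev (cup a b) (ct (m + j) x) =
      (-1 : ZMod l) ^ m * ev a x * ((-1 : ZMod l) ^ (j + 1) * ev b (ct j (sh m x))) := by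
    intro j _
    rw [ev_cup, ev_ct_of_le a (m + j) (by omega), sh_ct_add, add_assoc m j 1, pow_add]
    ring
  rw [Finset.sum_congr rfl h1, Finset.sum_congr rfl h2, ← Finset.sum_mul, ← Finset.mul_sum]
  linear_combination (ev b (sh (m + 1) x)) * h0

/-- Cup product with the cochain `a` on the left, on cochains. -/
noncomputable def cupLin {l : ℕ} {G : Type} {m : ℕ} (a : Cochain l G m) (n : ℕ) :
    Cochain l G n →ₗ[ZMod l] Cochain l G (m + n) where
  toFun b := cup a b
  map_add' b c := by
    funext g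
    exact mul_add _ _ _
  map_smul' r b := by
    funext g
    exact mul_left_comm _ _ _

theorem cup_mem_cocycle {l : ℕ} {G : Type} [Group G] {m : ℕ} (a : Cocycle l G m) (n : ℕ)
    (b : Cochain l G n) (hb : b ∈ Cocycle l G n) :
    cupLin (a : Cochain l G m) n b ∈ Cocycle l G (m + n) := by
  rw [mem_cocycle_iff] at hb ⊢
  change diff l G (m + n) (cup (a : Cochain l G m) b) = 0
  rw [diff_cup _ a.2, hb]
  have h1 : (cup (a : Cochain l G m) (0 : Cochain l G (n + 1)) : Cochain l G (m + (n + 1))) = 0 :=
    (cupLin (a : Cochain l G m) (n + 1)).map_zero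
  rw [h1, smul_zero]

theorem cup_mem_coboundary {l : ℕ} {G : Type} [Group G] {m : ℕ} (a : Cocycle l G m) (n : ℕ)
    (b : Cochain l G n) (hb : b ∈ Coboundary l G n) :
    cupLin (a : Cochain l G m) n b ∈ Coboundary l G (m + n) := by
  cases n with
  | zero =>
    rw [Coboundary, Submodule.mem_bot] at hb
    rw [hb, map_zero]
    exact Submodule.zero_mem _
  | succ n =>
    obtain ⟨b', rfl⟩ := hb
    refine ⟨(-1 : ZMod l) ^ m • cup (a : Cochain l G m) b', ?_⟩
    change diff l G (m + n) _ = _
    rw [map_smul, diff_cup _ a.2, smul_smul, ← mul_pow, neg_mul_neg, one_mul, one_pow, one_smul]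
    rfl

/-- Cup product with the cocycle `a` on the left, on cocycles. -/
noncomputable def cupZ {l : ℕ} {G : Type} [Group G] {m : ℕ} (a : Cocycle l G m) (n : ℕ) :
    Cocycle l G n →ₗ[ZMod l] Cocycle l G (m + n) :=
  (cupLin (a : Cochain l G m) n).restrict (cup_mem_cocycle a n)

/-- The class of the cup product with the cocycle `a` on the left, for cocycles. -/
noncomputable def cupClass {l : ℕ} {G : Type} [Group G] {m : ℕ} (a : Cocycle l G m) (n : ℕ) :
    Cocycle l G n →ₗ[ZMod l] Cohomology l G (m + n) :=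
  (mkClass l G (m + n)).comp (cupZ a n)

theorem cupClass_eq_zero {l : ℕ} {G : Type} [Group G] {m : ℕ} (a : Cocycle l G m) (n : ℕ) :
    CoboundaryIn l G n ≤ LinearMap.ker (cupClass a n) :=
  fun b hb => (mkClass_eq_zero _).2 (cup_mem_coboundary a n b hb)

/-- Cup product with the class of the cocycle `a` on the left, on cohomology. -/
noncomputable def cupH {l : ℕ} {G : Type} [Group G] {m : ℕ} (a : Cocycle l G m) (n : ℕ) :
    Cohomology l G n →ₗ[ZMod l] Cohomology l G (m + n) :=
  Submodule.liftQ (CoboundaryIn l G n) (cupClass a n) (cupClass_eq_zero a n)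

theorem cupH_mkClass {l : ℕ} {G : Type} [Group G] {m : ℕ} (a : Cocycle l G m) (n : ℕ)
    (b : Cocycle l G n) : cupH a n (mkClass l G n b) = mkClass l G (m + n) (cupZ a n b) := rfl

/-- The total cohomology `H^•(G; ZMod l)`, the direct sum of all `H^n(G; ZMod l)`. -/
def TotalCohomology (l : ℕ) (G : Type) [Group G] : Type :=
  DirectSum ℕ (Cohomology l G)

noncomputable instance instAddCommGroupTotal (l : ℕ) (G : Type) [Group G] :
    AddCommGroup (TotalCohomology l G) :=
  (inferInstance : AddCommGroup (DirectSum ℕ (Cohomology l G)))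

noncomputable instance instModuleTotal (l : ℕ) (G : Type) [Group G] :
    Module (ZMod l) (TotalCohomology l G) :=
  (inferInstance : Module (ZMod l) (DirectSum ℕ (Cohomology l G)))

/-- The inclusion of `H^n` in the total cohomology. -/
noncomputable def incl (l : ℕ) (G : Type) [Group G] (n : ℕ) :
    Cohomology l G n →ₗ[ZMod l] TotalCohomology l G :=
  DirectSum.lof (ZMod l) ℕ (Cohomology l G) n

/-- Cup product with the class of the cocycle `a` on the left, on the total cohomology. -/
noncomputable def cupTotal {l : ℕ} {G : Type} [Group G] {m : ℕ} (a : Cocycle l G m) :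
    TotalCohomology l G →ₗ[ZMod l] TotalCohomology l G :=
  DirectSum.toModule (ZMod l) ℕ _ (fun n => (incl l G (m + n)).comp (cupH a n))

theorem cupTotal_incl {l : ℕ} {G : Type} [Group G] {m : ℕ} (a : Cocycle l G m) (n : ℕ)
    (b : Cocycle l G n) :
    cupTotal a (incl l G n (mkClass l G n b)) =
      incl l G (m + n) (mkClass l G (m + n) (cupZ a n b)) := by
  rw [← cupH_mkClass]
  exact DirectSum.toModule_lof (ZMod l) n _

theorem incl_injective {l : ℕ} {G : Type} [Group G] (n : ℕ) :
    Function.Injective (incl l G n) :=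
  DirectSum.of_injective (β := Cohomology l G) n

end Pool.Agent.TH17.Coh
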