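import Pool.Agent.TH17.Torsion

set_option autoImplicit false

open CategoryTheory

namespace Pool.Agent.TH17.Coh

variable {l : ℕ} {S : Type} [Group S]

/-- the class of a cocycle in the group cohomology of Mathlib -/
noncomputable def cls (n : ℕ) (f : Cocycle l S n) : groupCohomology (Coeff l S) n :=
  groupCohomology.π (Coeff l S) n (groupCohomology.cocyclesMk (A := Coeff l S) (f : Cochain l S n) f.2)

theorem cls_smul_add (n : ℕ) (a b : ZMod l) (f g : Cocycle l S n) :
    cls n (a • f + b • g) = a • cls n f + b • cls n g := by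
  have h1 : groupCohomology.cocyclesMk (A := Coeff l S)
      ((a • f + b • g : Cocycle l S n) : Cochain l S n) (a • f + b • g).2 =
      a • groupCohomology.cocyclesMk (A := Coeff l S) (f : Cochain l S n) f.2 +
      b • groupCohomology.cocyclesMk (A := Coeff l S) (g : Cochain l S n) g.2 := by
    apply (ModuleCat.mono_iff_injective (groupCohomology.iCocycles (Coeff l S) n)).1 inferInstance
    rw [map_add, map_smul, map_smul, groupCohomology.iCocycles_mk _ f.2,
      groupCohomology.iCocycles_mk _ g.2, groupCohomology.iCocycles_mk _ (a • f + b • g).2]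
    rfl
  unfold cls
  rw [h1, map_add, map_smul, map_smul]

theorem mem_coboundary_of_cls_eq_zero (n : ℕ) (f : Cocycle l S (n + 1)) (hf : cls (n + 1) f = 0) :
    (f : Cochain l S (n + 1)) ∈ Coboundary l S (n + 1) := by
  let K := groupCohomology.inhomogeneousCochains (Coeff l S)
  let T : ShortComplex (ModuleCat (ZMod l)) :=
    ShortComplex.mk (K.toCycles n (n + 1)) (K.homologyπ (n + 1)) (K.toCycles_comp_homologyπ _ _)
  have hT : T.Exact :=
    T.exact_of_g_is_cokernel (K.homologyIsCokernel n (n + 1) (by simp))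
  obtain ⟨x, hx⟩ := (ShortComplex.moduleCat_exact_iff T).1 hT _ hf
  have h2 : K.iCycles (n + 1) (K.toCycles n (n + 1) x) =
      K.iCycles (n + 1) (groupCohomology.cocyclesMk (A := Coeff l S)
        (f : Cochain l S (n + 1)) f.2) := by
    exact congrArg _ hx
  rw [groupCohomology.iCocycles_mk _ f.2] at h2
  have h3 : K.iCycles (n + 1) (K.toCycles n (n + 1) x) = K.d n (n + 1) x := by
    rw [← ConcreteCategory.comp_apply, K.toCycles_i]
  rw [h3, groupCohomology.inhomogeneousCochains.d_def] at h2
  exact ⟨x, h2⟩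

/-- In even positive degree the cohomology of a finite cyclic group with trivial coefficients in
`ZMod l` is generated by one element. -/
theorem exists_dep [Fact l.Prime] [Finite S] [hc : IsCyclic S] (n : ℕ) (hn : Even (n + 1))
    (f g : Cocycle l S (n + 1)) :
    ∃ a b : ZMod l, (a ≠ 0 ∨ b ≠ 0) ∧
      ((a • f + b • g : Cocycle l S (n + 1)) : Cochain l S (n + 1)) ∈
        Coboundary l S (n + 1) := by
  classical
  let _ : CommGroup S := IsCyclic.commGroup
  let _ : Fintype S := Fintype.ofFinite S
  obtain ⟨s, hs⟩ := IsCyclic.exists_generator (α := S)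
  have hsurj : Function.Surjective
      (Rep.FiniteCyclicGroup.groupCohomologyπEven (Coeff l S) s hs (n + 1) hn) := by
    apply (ModuleCat.epi_iff_surjective _).1
    unfold Rep.FiniteCyclicGroup.groupCohomologyπEven
    have e2 : Epi (ShortComplex.homologyπ (Rep.FiniteCyclicGroup.normHomCompSub (Coeff l S) s)) :=
      inferInstance
    have e1 : Epi (Rep.FiniteCyclicGroup.normHomCompSub (Coeff l S) s).moduleCatCyclesIso.inv :=
      IsSplitEpi.epi _
    exact epi_comp' e1 (epi_comp' e2 inferInstance)
  obtain ⟨u, hu⟩ := hsurj (cls (n + 1) f)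
  obtain ⟨v, hv⟩ := hsurj (cls (n + 1) g)
  have hval : ∀ w : ModuleCat.of (ZMod l) (LinearMap.ker
      (Rep.applyAsHom (Coeff l S) s - 𝟙 (Coeff l S)).hom.toLinearMap), ∃ x : ZMod l,
      (w.1 : ZMod l) = x := fun w => ⟨_, rfl⟩
  have key : ∀ a b : ZMod l, a * (u.1 : ZMod l) + b * (v.1 : ZMod l) = 0 →
      ((a • f + b • g : Cocycle l S (n + 1)) : Cochain l S (n + 1)) ∈
        Coboundary l S (n + 1) := by
    intro a b hab
    apply mem_coboundary_of_cls_eq_zero
    rw [cls_smul_add, ← hu, ← hv, ← map_smul, ← map_smul, ← map_add]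
    have : a • u + b • v = 0 := by
      apply Subtype.ext
      exact hab
    rw [this, map_zero]
  by_cases h0 : (u.1 : ZMod l) = 0
  · exact ⟨1, 0, Or.inl one_ne_zero, key 1 0 (by rw [h0]; simp)⟩
  · refine ⟨-(v.1 : ZMod l), u.1, Or.inr h0, key _ _ (by ring)⟩

end Pool.Agent.TH17.Coh
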