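import Pool.Agent.TH17.OKS

set_option autoImplicit false

open Polynomial IsDedekindDomain WithZero

namespace Pool.Agent.TH17.FF

theorem lt_exp_iff (x : ℤᵐ⁰) (m : ℤ) : x < exp m ↔ x ≤ exp (m - 1) := by
  rcases eq_or_ne x 0 with rfl | hx
  · simp
  · rw [← log_lt_iff_lt_exp hx, ← log_le_iff_le_exp hx]
    omega

theorem eq_exp_of_ne_zero {x : ℤᵐ⁰} (hx : x ≠ 0) : ∃ m : ℤ, x = exp m :=
  ⟨log x, (exp_log hx).symm⟩

section edge

variable {F : Type} [Field F] (v : Valuation F ℤᵐ⁰)

/-- The comparison of the orientations of an edge with respect to two adjacent lattices: they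
differ only if the edge is the one joining the two lattices. -/
theorem edge_lemma (a1 b1 a2 b2 : F) (hdet : v (a1 * b2 - a2 * b1) = 1)
    (hne : ¬ ((max (v a1) (v b1) < max (v a2) (v b2)) ↔
      (max (v a1) (exp 1 * v b1) < max (v a2) (exp 1 * v b2)))) :
    v a1 = 1 ∧ v b1 < 1 ∧ v a2 ≤ 1 ∧ v b2 = 1 := by
  have hexp : ∀ (x : ℤᵐ⁰) (m : ℤ), exp 1 * x ≤ exp m ↔ x ≤ exp (m - 1) := by
    intro x m
    rcases eq_or_ne x 0 with rfl | hx
    · simp
    · obtain ⟨n, rfl⟩ := eq_exp_of_ne_zero hx
      rw [← exp_add, exp_le_exp, exp_le_exp]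
      omega
  have hexp' : ∀ (x : ℤᵐ⁰) (m : ℤ), exp m ≤ exp 1 * x ↔ exp (m - 1) ≤ x := by
    intro x m
    rcases eq_or_ne x 0 with rfl | hx
    · simp
    · obtain ⟨n, rfl⟩ := eq_exp_of_ne_zero hx
      rw [← exp_add, exp_le_exp, exp_le_exp]
      omega
  by_cases h1 : max (v a1) (v b1) < max (v a2) (v b2)
  · -- first case
    exfalso
    have h2 : ¬ (max (v a1) (exp 1 * v b1) < max (v a2) (exp 1 * v b2)) := by
      intro h
      exact hne ⟨fun _ => h, fun _ => h1⟩
    rw [not_lt] at h2
    have hM : max (v a2) (v b2) ≠ 0 := by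
      intro h
      rw [h] at h1
      exact not_lt_zero h1
    obtain ⟨m, hm⟩ := eq_exp_of_ne_zero hM
    rw [hm, max_lt_iff, lt_exp_iff, lt_exp_iff] at h1
    have h3 : exp m ≤ max (v a2) (exp 1 * v b2) := by
      rw [← hm]
      apply max_le_max_left
      calc v b2 = 1 * v b2 := (one_mul _).symm
        _ ≤ exp 1 * v b2 := by
          gcongr
          rw [← exp_zero, exp_le_exp]
          norm_num
    have h4 : exp m ≤ exp 1 * v b1 := by
      rcases le_max_iff.1 (h3.trans h2) with h | h
      · exfalso
        have := h.trans h1.1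
        rw [exp_le_exp] at this
        omega
      · exact h
    have hb1 : v b1 = exp (m - 1) := le_antisymm h1.2 ((hexp' _ _).1 h4)
    have h5 : max (v a1) (exp 1 * v b1) ≤ exp m := by
      apply max_le
      · exact h1.1.trans (by rw [exp_le_exp]; omega)
      · rw [hexp, hb1]
    have h6 := max_le_iff.1 (h2.trans h5)
    have hb2 : v b2 ≤ exp (m - 1) := (hexp _ _).1 h6.2
    have ha2 : v a2 = exp m := by
      rcases le_max_iff.1 hm.ge with h | h
      · exact le_antisymm h6.1 h
      · exfalso
        have := h.trans hb2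
        rw [exp_le_exp] at this
        omega
    have h7 : v (a2 * b1) = exp (2 * m - 1) := by
      rw [map_mul, ha2, hb1, ← exp_add]
      congr 1
      ring
    have h8 : v (a1 * b2) < v (a2 * b1) := by
      rw [h7, lt_exp_iff, map_mul]
      calc v a1 * v b2 ≤ exp (m - 1) * exp (m - 1) := by
            gcongr
            exact h1.1
        _ = exp (2 * m - 1 - 1) := by
          rw [← exp_add]
          congr 1
          ring
    have h9 : v (a1 * b2 - a2 * b1) = v (a2 * b1) := Valuation.map_sub_eq_of_lt_right v h8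
    rw [h9, h7, ← exp_zero, exp_inj] at hdet
    omega
  · -- second case
    have h2 : max (v a1) (exp 1 * v b1) < max (v a2) (exp 1 * v b2) := by
      by_contra h
      exact hne ⟨fun h' => absurd h' h1, fun h' => absurd h' h⟩
    rw [not_lt] at h1
    have hM : max (v a1) (v b1) ≠ 0 := by
      intro h
      have ha : v a1 = 0 := le_antisymm (by rw [← h]; exact le_max_left _ _) zero_le
      have hb : v b1 = 0 := le_antisymm (by rw [← h]; exact le_max_right _ _) zero_le
      rw [(map_eq_zero v).1 ha, (map_eq_zero v).1 hb] at hdet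
      simp at hdet
    obtain ⟨m, hm⟩ := eq_exp_of_ne_zero hM
    rw [hm, max_le_iff] at h1
    have h3 : max (v a2) (exp 1 * v b2) ≤ exp (m + 1) := by
      apply max_le
      · exact h1.1.trans (by rw [exp_le_exp]; omega)
      · rw [hexp]
        simpa using h1.2
    have h4 : max (v a1) (exp 1 * v b1) ≤ exp m := by
      have := h2.trans_le h3
      rw [lt_exp_iff] at this
      simpa using this
    rw [max_le_iff, hexp] at h4
    have ha1 : v a1 = exp m := by
      rcases le_max_iff.1 hm.ge with h | h
      · exact le_antisymm h4.1 h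
      · exfalso
        have := h.trans h4.2
        rw [exp_le_exp] at this
        omega
    have hb2 : v b2 = exp m := by
      have h5 : exp m < max (v a2) (exp 1 * v b2) := by
        rw [← ha1]
        exact (le_max_left _ _).trans_lt h2
      rcases lt_max_iff.1 h5 with h | h
      · exact absurd (h.trans_le h1.1) (lt_irrefl _)
      · refine le_antisymm h1.2 ?_
        by_contra hc
        rw [not_le, lt_exp_iff, ← hexp] at hc
        exact absurd (h.trans_le hc) (lt_irrefl _)
    have h7 : v (a1 * b2) = exp (2 * m) := by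
      rw [map_mul, ha1, hb2, ← exp_add]
      congr 1
      ring
    have h8 : v (a2 * b1) < v (a1 * b2) := by
      rw [h7, lt_exp_iff, map_mul]
      calc v a2 * v b1 ≤ exp m * exp (m - 1) := by
            gcongr
            · exact h1.1
            · exact h4.2
        _ = exp (2 * m - 1) := by
          rw [← exp_add]
          congr 1
          ring
    have h9 : v (a1 * b2 - a2 * b1) = v (a1 * b2) := Valuation.map_sub_eq_of_lt_left v h8
    rw [h9, h7, ← exp_zero, exp_inj] at hdet
    have hm0 : m = 0 := by omega
    subst hm0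
    rw [exp_zero] at *
    refine ⟨ha1, ?_, h1.1, hb2⟩
    rw [← exp_zero, lt_exp_iff]
    exact h4.2

/-- the norm of a vector -/
def nrm (w : F × F) : ℤᵐ⁰ := max (v w.1) (v w.2)

/-- the norm of a vector with respect to the lattice defined by `t` -/
def nrmT (t : F) (w : F × F) : ℤᵐ⁰ := max (v w.2) (exp 1 * v (w.1 - t * w.2))

variable {v}

theorem nrm_eq (t : F) (ht : v t ≤ 1) (w : F × F) :
    nrm v w = max (v w.2) (v (w.1 - t * w.2)) := by
  unfold nrm
  have h1 : v (t * w.2) ≤ v w.2 := by
    rw [map_mul]
    calc v t * v w.2 ≤ 1 * v w.2 := by gcongr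
      _ = v w.2 := one_mul _
  apply le_antisymm
  · apply max_le
    · have h2 : w.1 = (w.1 - t * w.2) + t * w.2 := by ring
      calc v w.1 = v ((w.1 - t * w.2) + t * w.2) := by rw [← h2]
        _ ≤ max (v (w.1 - t * w.2)) (v (t * w.2)) := Valuation.map_add _ _ _
        _ ≤ max (v w.2) (v (w.1 - t * w.2)) :=
          max_le (le_max_right _ _) (h1.trans (le_max_left _ _))
    · exact le_max_left _ _
  · apply max_le
    · exact le_max_right _ _
    · refine (Valuation.map_sub _ _ _).trans ?_
      exact max_le (le_max_left _ _) (h1.trans (le_max_right _ _))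

theorem nrm_smul (c : F) (w : F × F) : nrm v (c * w.1, c * w.2) = v c * nrm v w := by
  unfold nrm
  simp only [map_mul]
  rcases le_total (v w.1) (v w.2) with h | h
  · rw [max_eq_right h, max_eq_right (mul_le_mul_right h (v c))]
  · rw [max_eq_left h, max_eq_left (mul_le_mul_right h (v c))]

theorem nrm_pos (w : F × F) (hw : w ≠ 0) : 0 < nrm v w := by
  unfold nrm
  rw [lt_max_iff]
  by_contra h
  push Not at h
  apply hw
  have h1 : v w.1 = 0 := le_antisymm h.1 zero_le
  have h2 : v w.2 = 0 := le_antisymm h.2 zero_le
  exact Prod.ext ((map_eq_zero v).1 h1) ((map_eq_zero v).1 h2)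

/-- the action of a matrix on a vector -/
def act (g : Matrix (Fin 2) (Fin 2) F) (w : F × F) : F × F :=
  (g 0 0 * w.1 + g 0 1 * w.2, g 1 0 * w.1 + g 1 1 * w.2)

theorem act_mul (g h : Matrix (Fin 2) (Fin 2) F) (w : F × F) :
    act (g * h) w = act g (act h w) := by
  simp only [act, Matrix.mul_apply, Fin.sum_univ_two]
  apply Prod.ext <;> simp only <;> ring

theorem act_one (w : F × F) : act (1 : Matrix (Fin 2) (Fin 2) F) w = w := by
  simp [act]

theorem act_bound (g : Matrix (Fin 2) (Fin 2) F) (C : ℤᵐ⁰) (hC : ∀ i j, v (g i j) ≤ C)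
    (w : F × F) : nrm v (act g w) ≤ C * nrm v w := by
  have h1 : ∀ i, v (g i 0 * w.1 + g i 1 * w.2) ≤ C * nrm v w := by
    intro i
    refine (Valuation.map_add _ _ _).trans (max_le ?_ ?_)
    · rw [map_mul]
      exact mul_le_mul' (hC i 0) (le_max_left _ _)
    · rw [map_mul]
      exact mul_le_mul' (hC i 1) (le_max_right _ _)
  exact max_le (h1 0) (h1 1)

/-- wedge product of two vectors -/
def wedge (x y : F × F) : F := x.1 * y.2 - x.2 * y.1

/-- If the order of the norms of the columns changes under `g`, then the vectors are bounded. -/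
theorem bounded_of_change (g g' : Matrix (Fin 2) (Fin 2) F) (hg : g' * g = 1) (C : ℤᵐ⁰)
    (hC1 : 1 ≤ C) (hC : ∀ i j, v (g i j) ≤ C) (hC' : ∀ i j, v (g' i j) ≤ C) (x y : F × F)
    (hw : v (wedge x y) = 1) (h1 : nrm v x < nrm v y) (h2 : nrm v (act g y) ≤ nrm v (act g x)) :
    nrm v y ≤ C ^ 2 := by
  have hC0 : 0 < C := lt_of_lt_of_le zero_lt_one hC1
  have hy : nrm v y ≤ C * nrm v (act g y) := by
    have := act_bound g' C hC' (act g y)
    rwa [← act_mul, hg, act_one] at this
  have hx : nrm v x ≤ C * nrm v (act g x) := by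
    have := act_bound g' C hC' (act g x)
    rwa [← act_mul, hg, act_one] at this
  have hx' : nrm v (act g x) ≤ C * nrm v x := act_bound g C hC x
  have hyx : nrm v y ≤ C ^ 2 * nrm v x := by
    calc nrm v y ≤ C * nrm v (act g y) := hy
      _ ≤ C * nrm v (act g x) := by gcongr
      _ ≤ C * (C * nrm v x) := by gcongr
      _ = C ^ 2 * nrm v x := by rw [pow_two, mul_assoc]
  have hy0 : y ≠ 0 := by
    rintro rfl
    simp [wedge] at hw
  have hx0 : x ≠ 0 := by
    rintro rfl
    simp [wedge] at hw
  have hny := nrm_pos (v := v) y hy0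
  have hnx := nrm_pos (v := v) x hx0
  have key : nrm v x * nrm v y ≤ C ^ 2 := by
    by_contra hc
    rw [not_le] at hc
    -- a multiple of `y` close to `x`
    obtain ⟨c, hc1⟩ : ∃ c : F, nrm v (x.1 - c * y.1, x.2 - c * y.2) * nrm v y = 1 := by
      rcases le_total (v y.1) (v y.2) with h | h
      · have e1 : nrm v y = v y.2 := max_eq_right h
        have hy2 : y.2 ≠ 0 := by
          intro h0
          rw [e1, h0, map_zero] at hny
          exact lt_irrefl _ hny
        refine ⟨x.2 / y.2, ?_⟩
        have e2 : x.2 - x.2 / y.2 * y.2 = 0 := by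
          field_simp
          ring
        have e3 : (x.1 - x.2 / y.2 * y.1) * y.2 = wedge x y := by
          unfold wedge
          field_simp
        rw [e1]
        unfold nrm
        simp only
        rw [e2, map_zero, max_eq_left zero_le, ← map_mul, e3, hw]
      · have e1 : nrm v y = v y.1 := max_eq_left h
        have hy1 : y.1 ≠ 0 := by
          intro h0
          rw [e1, h0, map_zero] at hny
          exact lt_irrefl _ hny
        refine ⟨x.1 / y.1, ?_⟩
        have e2 : x.1 - x.1 / y.1 * y.1 = 0 := by
          field_simp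
          ring
        have e3 : (x.2 - x.1 / y.1 * y.2) * y.1 = -wedge x y := by
          unfold wedge
          field_simp
          ring
        rw [e1]
        unfold nrm
        simp only
        rw [e2, map_zero, max_eq_right zero_le, ← map_mul, e3, Valuation.map_neg, hw]
    set z : F × F := (x.1 - c * y.1, x.2 - c * y.2) with hz
    have hxz : x = (c * y.1 + z.1, c * y.2 + z.2) := by
      apply Prod.ext <;> simp [hz]
    -- `z` is small
    have hz1 : C ^ 2 * nrm v z < nrm v x := by
      have : (C ^ 2 * nrm v z) * nrm v y < nrm v x * nrm v y := by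
        rw [mul_assoc, hc1, mul_one]
        exact hc
      exact lt_of_mul_lt_mul_right' this
    have hz2 : nrm v z < nrm v x := by
      refine lt_of_le_of_lt ?_ hz1
      calc nrm v z = 1 * nrm v z := (one_mul _).symm
        _ ≤ C ^ 2 * nrm v z := by
          gcongr
          exact one_le_pow₀ hC1
    have hgz : nrm v (act g z) < nrm v (act g x) := by
      have h3 : C * nrm v (act g z) < C * nrm v (act g x) := by
        calc C * nrm v (act g z) ≤ C * (C * nrm v z) := by
              gcongr
              exact act_bound g C hC z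
          _ = C ^ 2 * nrm v z := by rw [pow_two, mul_assoc]
          _ < nrm v x := hz1
          _ ≤ C * nrm v (act g x) := hx
      exact lt_of_mul_lt_mul_left' h3
    -- compare norms
    have hadd : ∀ a b : F × F, nrm v (a.1 + b.1, a.2 + b.2) ≤ max (nrm v a) (nrm v b) := by
      intro a b
      unfold nrm
      apply max_le
      · refine (Valuation.map_add _ _ _).trans (max_le_max (le_max_left _ _) (le_max_left _ _))
      · refine (Valuation.map_add _ _ _).trans (max_le_max (le_max_right _ _) (le_max_right _ _))
    have hc2 : v c * nrm v y ≤ nrm v x := by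
      rw [← nrm_smul]
      have e4 : ((c * y.1, c * y.2) : F × F) = (x.1 + (-z.1), x.2 + (-z.2)) := by
        apply Prod.ext <;> simp [hz]
      rw [e4]
      refine (hadd x (-z.1, -z.2)).trans (max_le le_rfl ?_)
      unfold nrm
      simp only [Valuation.map_neg]
      exact hz2.le
    have hc3 : v c < 1 := by
      by_contra h
      rw [not_lt] at h
      have : nrm v y ≤ nrm v x := by
        calc nrm v y = 1 * nrm v y := (one_mul _).symm
          _ ≤ v c * nrm v y := by gcongr
          _ ≤ nrm v x := hc2
      exact absurd this (not_le.2 h1)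
    have hgx : nrm v (act g x) ≤ v c * nrm v (act g y) := by
      have e5 : act g x = ((c * (act g y).1) + (act g z).1, (c * (act g y).2) + (act g z).2) := by
        conv_lhs => rw [hxz]
        simp only [act]
        apply Prod.ext <;> simp only <;> ring
      have e6 := hadd (c * (act g y).1, c * (act g y).2) (act g z)
      rw [nrm_smul] at e6
      simp only at e6
      rw [← e5] at e6
      rcases le_max_iff.1 e6 with h | h
      · exact h
      · exact absurd hgz (not_lt.2 h)
    have hgy : 0 < nrm v (act g y) := by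
      by_contra h
      rw [not_lt] at h
      have h3 : nrm v (act g y) = 0 := le_antisymm h zero_le
      rw [h3, mul_zero] at hy
      exact absurd hny (not_lt.2 hy)
    have : nrm v (act g x) < nrm v (act g y) := by
      refine hgx.trans_lt ?_
      calc v c * nrm v (act g y) < 1 * nrm v (act g y) := by gcongr
        _ = nrm v (act g y) := one_mul _
    exact absurd this (not_lt.2 h2)
  have h3 : nrm v y * nrm v y ≤ C ^ 2 * C ^ 2 := by
    calc nrm v y * nrm v y ≤ (C ^ 2 * nrm v x) * nrm v y := by gcongr
      _ = C ^ 2 * (nrm v x * nrm v y) := mul_assoc _ _ _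
      _ ≤ C ^ 2 * C ^ 2 := by gcongr
  by_contra h
  rw [not_le] at h
  have h4 : C ^ 2 * C ^ 2 < nrm v y * nrm v y := mul_lt_mul'' h h zero_le zero_le
  exact absurd h3 (not_le.2 h4)

end edge

end Pool.Agent.TH17.FF
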