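import Pool.Agent.TH17.Coh

set_option autoImplicit false

namespace Pool.Agent.TH17.Coh

open scoped Pointwise

section integral

variable {l : ℕ} {G : Type} [Group G] {S : Subgroup G} (h : G ⧸ S → ℤ)

/-- every translate of `h` differs from `h` at finitely many points only -/
def AlmostInv : Prop := ∀ g : G, {y : G ⧸ S | h (g⁻¹ • y) ≠ h y}.Finite

/-- integration of a function along the edges between two positions -/
noncomputable def J (l : ℕ) (u v : G) (φ : G ⧸ S → ZMod l) : ZMod l :=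
  ∑ᶠ y, ((h (v⁻¹ • y) - h (u⁻¹ • y) : ℤ) : ZMod l) * φ y

variable {h}

theorem fin_uv (hfin : AlmostInv h) (u v : G) :
    {y : G ⧸ S | h (v⁻¹ • y) ≠ h (u⁻¹ • y)}.Finite := by
  have h1 := (hfin (u⁻¹ * v)).image (fun y => u • y)
  refine h1.subset ?_
  intro y hy
  refine ⟨u⁻¹ • y, ?_, by simp⟩
  simpa [smul_smul, mul_assoc] using hy

theorem supp_J (hfin : AlmostInv h) (u v : G) (φ : G ⧸ S → ZMod l) :
    (Function.support
      (fun y => ((h (v⁻¹ • y) - h (u⁻¹ • y) : ℤ) : ZMod l) * φ y)).Finite := by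
  refine (fin_uv hfin u v).subset ?_
  intro y hy hc
  apply hy
  simp only
  rw [hc, sub_self, Int.cast_zero, zero_mul]

theorem J_add (hfin : AlmostInv h) (u v : G) (φ ψ : G ⧸ S → ZMod l) :
    J h l u v (fun y => φ y + ψ y) = J h l u v φ + J h l u v ψ := by
  unfold J
  rw [← finsum_add_distrib (supp_J hfin u v φ) (supp_J hfin u v ψ)]
  simp only [mul_add]

theorem J_mul (hfin : AlmostInv h) (u v : G) (a : ZMod l) (φ : G ⧸ S → ZMod l) :
    J h l u v (fun y => a * φ y) = a * J h l u v φ := by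
  unfold J
  rw [mul_finsum' _ _ (supp_J hfin u v φ)]
  simp only [mul_left_comm]

theorem J_chain (hfin : AlmostInv h) (u v w : G) (φ : G ⧸ S → ZMod l) :
    J h l u v φ + J h l v w φ = J h l u w φ := by
  unfold J
  rw [← finsum_add_distrib (supp_J hfin u v φ) (supp_J hfin v w φ)]
  congr 1
  funext y
  push_cast
  ring

theorem J_inv (g u v : G) (φ : G ⧸ S → ZMod l) :
    J h l (g * u) (g * v) φ = J h l u v (fun y => φ (g • y)) := by
  unfold J
  rw [← finsum_comp_equiv (MulAction.toPerm g)]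
  simp [smul_smul]

end integral

theorem diff3 {l : ℕ} {G : Type} [Group G] (f : Cochain l G 3) (a b c d : G) :
    diff l G 3 f ![a, b, c, d] = f ![b, c, d] - f ![a * b, c, d] + f ![a, b * c, d]
      - f ![a, b, c * d] + f ![a, b, c] := by
  rw [diff_apply]
  have h0 : (fun i : Fin 3 => (![a, b, c, d] : Fin 4 → G) i.succ) = ![b, c, d] := by
    funext i; fin_cases i <;> rfl
  have h1 : Fin.contractNth (0 : Fin 4) (· * ·) ![a, b, c, d] = ![a * b, c, d] := by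
    funext i; fin_cases i <;> rfl
  have h2 : Fin.contractNth (1 : Fin 4) (· * ·) ![a, b, c, d] = ![a, b * c, d] := by
    funext i; fin_cases i <;> rfl
  have h3 : Fin.contractNth (2 : Fin 4) (· * ·) ![a, b, c, d] = ![a, b, c * d] := by
    funext i; fin_cases i <;> rfl
  have h4 : Fin.contractNth (3 : Fin 4) (· * ·) ![a, b, c, d] = ![a, b, c] := by
    funext i; fin_cases i <;> rfl
  rw [Fin.sum_univ_four, h0, h1, h2, h3, h4]
  simp
  ring

theorem diff4 {l : ℕ} {G : Type} [Group G] (f : Cochain l G 4) (a b c d e : G) :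
    diff l G 4 f ![a, b, c, d, e] = f ![b, c, d, e] - f ![a * b, c, d, e] + f ![a, b * c, d, e]
      - f ![a, b, c * d, e] + f ![a, b, c, d * e] - f ![a, b, c, d] := by
  rw [diff_apply]
  have h0 : (fun i : Fin 4 => (![a, b, c, d, e] : Fin 5 → G) i.succ) = ![b, c, d, e] := by
    funext i; fin_cases i <;> rfl
  have h1 : Fin.contractNth (0 : Fin 5) (· * ·) ![a, b, c, d, e] = ![a * b, c, d, e] := by
    funext i; fin_cases i <;> rfl
  have h2 : Fin.contractNth (1 : Fin 5) (· * ·) ![a, b, c, d, e] = ![a, b * c, d, e] := by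
    funext i; fin_cases i <;> rfl
  have h3 : Fin.contractNth (2 : Fin 5) (· * ·) ![a, b, c, d, e] = ![a, b, c * d, e] := by
    funext i; fin_cases i <;> rfl
  have h4 : Fin.contractNth (3 : Fin 5) (· * ·) ![a, b, c, d, e] = ![a, b, c, d * e] := by
    funext i; fin_cases i <;> rfl
  have h5 : Fin.contractNth (4 : Fin 5) (· * ·) ![a, b, c, d, e] = ![a, b, c, d] := by
    funext i; fin_cases i <;> rfl
  rw [Fin.sum_univ_five, h0, h1, h2, h3, h4, h5]
  simp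
  ring


section main

variable {l : ℕ} {G : Type} [Group G]

/-- homogeneous form of a cochain of degree four -/
def C5 (c : Cochain l G 4) (x0 x1 x2 x3 x4 : G) : ZMod l :=
  c ![x0⁻¹ * x1, x1⁻¹ * x2, x2⁻¹ * x3, x3⁻¹ * x4]

/-- homogeneous form of a cochain of degree three -/
def B4 (c : Cochain l G 3) (x0 x1 x2 x3 : G) : ZMod l :=
  c ![x0⁻¹ * x1, x1⁻¹ * x2, x2⁻¹ * x3]

theorem C5_inv (c : Cochain l G 4) (g x0 x1 x2 x3 x4 : G) :
    C5 c (g * x0) (g * x1) (g * x2) (g * x3) (g * x4) = C5 c x0 x1 x2 x3 x4 := by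
  simp [C5, mul_assoc]

theorem B4_inv (c : Cochain l G 3) (g x0 x1 x2 x3 : G) :
    B4 c (g * x0) (g * x1) (g * x2) (g * x3) = B4 c x0 x1 x2 x3 := by
  simp [B4, mul_assoc]

theorem C5_cocycle (c : Cocycle l G 4) (x0 x1 x2 x3 x4 x5 : G) :
    C5 (c : Cochain l G 4) x1 x2 x3 x4 x5 - C5 (c : Cochain l G 4) x0 x2 x3 x4 x5 +
      C5 (c : Cochain l G 4) x0 x1 x3 x4 x5 - C5 (c : Cochain l G 4) x0 x1 x2 x4 x5 +
      C5 (c : Cochain l G 4) x0 x1 x2 x3 x5 - C5 (c : Cochain l G 4) x0 x1 x2 x3 x4 = 0 := by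
  have h1 := (mem_cocycle_iff _).1 c.2
  have h2 := congrFun h1 ![x0⁻¹ * x1, x1⁻¹ * x2, x2⁻¹ * x3, x3⁻¹ * x4, x4⁻¹ * x5]
  rw [diff4, Cochain.zero_apply] at h2
  simpa [C5, mul_assoc] using h2

variable (S : Subgroup G)

/-- an equivariant retraction of `G` onto the subgroup `S` -/
noncomputable def retr (g : G) : S :=
  ⟨g * (QuotientGroup.mk g⁻¹ : G ⧸ S).out, by
    have h1 : (QuotientGroup.mk ((QuotientGroup.mk g⁻¹ : G ⧸ S).out) : G ⧸ S) =
        QuotientGroup.mk g⁻¹ := Quotient.out_eq _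
    have h2 := QuotientGroup.eq.1 h1.symm
    simpa using h2⟩

theorem retr_mul (s : S) (g : G) : retr S ((s : G) * g) = s * retr S g := by
  apply Subtype.ext
  change ((s : G) * g) * (QuotientGroup.mk ((s : G) * g)⁻¹ : G ⧸ S).out =
    (s : G) * (g * (QuotientGroup.mk g⁻¹ : G ⧸ S).out)
  have h1 : (QuotientGroup.mk ((s : G) * g)⁻¹ : G ⧸ S) = QuotientGroup.mk g⁻¹ := by
    rw [QuotientGroup.eq]
    simp [mul_assoc]
  rw [h1, mul_assoc]

variable {S}

/-- the cochain of degree three on `G`, invariant under `S`, with coboundary `c` -/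
noncomputable def bh (c : Cochain l G 4) (β : Cochain l S 3) (x0 x1 x2 x3 : G) : ZMod l :=
  B4 β (retr S x0) (retr S x1) (retr S x2) (retr S x3) -
    (C5 c x0 (retr S x0) (retr S x1) (retr S x2) (retr S x3) -
      C5 c x0 x1 (retr S x1) (retr S x2) (retr S x3) +
      C5 c x0 x1 x2 (retr S x2) (retr S x3) - C5 c x0 x1 x2 x3 (retr S x3))

theorem bh_inv (c : Cochain l G 4) (β : Cochain l S 3) (s : S) (x0 x1 x2 x3 : G) :
    bh c β ((s : G) * x0) ((s : G) * x1) ((s : G) * x2) ((s : G) * x3) = bh c β x0 x1 x2 x3 := by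
  unfold bh
  simp only [retr_mul, B4_inv, Subgroup.coe_mul, C5_inv]

theorem bh_diff (c : Cocycle l G 4) (β : Cochain l S 3)
    (hβ : ∀ g : Fin 4 → S, diff l S 3 β g = (c : Cochain l G 4) (fun i => (g i : G)))
    (x0 x1 x2 x3 x4 : G) :
    bh (c : Cochain l G 4) β x1 x2 x3 x4 - bh (c : Cochain l G 4) β x0 x2 x3 x4 +
      bh (c : Cochain l G 4) β x0 x1 x3 x4 - bh (c : Cochain l G 4) β x0 x1 x2 x4 +
      bh (c : Cochain l G 4) β x0 x1 x2 x3 = C5 (c : Cochain l G 4) x0 x1 x2 x3 x4 := by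
  have hb : ∀ r0 r1 r2 r3 r4 : S, B4 β r1 r2 r3 r4 - B4 β r0 r2 r3 r4 + B4 β r0 r1 r3 r4
      - B4 β r0 r1 r2 r4 + B4 β r0 r1 r2 r3 = C5 (c : Cochain l G 4) r0 r1 r2 r3 r4 := by
    intro r0 r1 r2 r3 r4
    have h2 := hβ ![r0⁻¹ * r1, r1⁻¹ * r2, r2⁻¹ * r3, r3⁻¹ * r4]
    rw [diff3] at h2
    have h3 : (fun i => ((![r0⁻¹ * r1, r1⁻¹ * r2, r2⁻¹ * r3, r3⁻¹ * r4] : Fin 4 → S) i : G)) =
        ![(r0 : G)⁻¹ * r1, (r1 : G)⁻¹ * r2, (r2 : G)⁻¹ * r3, (r3 : G)⁻¹ * r4] := by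
      funext i
      fin_cases i <;> rfl
    rw [h3] at h2
    simpa [C5, B4, mul_assoc] using h2
  have hr := hb (retr S x0) (retr S x1) (retr S x2) (retr S x3) (retr S x4)
  have T0 := C5_cocycle c x0 (retr S x0) (retr S x1) (retr S x2) (retr S x3) (retr S x4)
  have T1 := C5_cocycle c x0 x1 (retr S x1) (retr S x2) (retr S x3) (retr S x4)
  have T2 := C5_cocycle c x0 x1 x2 (retr S x2) (retr S x3) (retr S x4)
  have T3 := C5_cocycle c x0 x1 x2 x3 (retr S x3) (retr S x4)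
  have T4 := C5_cocycle c x0 x1 x2 x3 x4 (retr S x4)
  unfold bh
  linear_combination hr + T0 - T1 + T2 - T3 + T4

variable (h : G ⧸ S → ℤ)

/-- the homogeneous cochain of degree four with coboundary `c ∪ x` -/
noncomputable def bhom (c : Cochain l G 4) (β : Cochain l S 3) (x0 x1 x2 x3 x4 : G) : ZMod l :=
  J h l x3 x4 (fun y => bh c β (y.out⁻¹ * x0) (y.out⁻¹ * x1) (y.out⁻¹ * x2) (y.out⁻¹ * x3))

theorem bhom_inv (c : Cochain l G 4) (β : Cochain l S 3) (g x0 x1 x2 x3 x4 : G) :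
    bhom h c β (g * x0) (g * x1) (g * x2) (g * x3) (g * x4) = bhom h c β x0 x1 x2 x3 x4 := by
  unfold bhom
  rw [J_inv]
  congr 1
  funext y
  have h1 : (QuotientGroup.mk ((g • y).out) : G ⧸ S) = QuotientGroup.mk (g * y.out) := by
    have h2 : (QuotientGroup.mk ((g • y).out) : G ⧸ S) = g • y := Quotient.out_eq _
    have h3 : (QuotientGroup.mk y.out : G ⧸ S) = y := Quotient.out_eq _
    rw [h2]
    conv_lhs => rw [← h3]
    rfl
  have h2 := QuotientGroup.eq.1 h1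
  obtain ⟨s, h4⟩ : ∃ s : S, ∀ x : G, (g • y).out⁻¹ * (g * x) = (s : G) * (y.out⁻¹ * x) :=
    ⟨⟨(g • y).out⁻¹ * (g * y.out), h2⟩, fun x => by simp [mul_assoc]⟩
  rw [h4, h4, h4, h4, bh_inv]

/-- the degree one cocycle defined by `h` -/
noncomputable def xco (l : ℕ) : Cochain l G 1 := fun g => J h l 1 (g 0) (fun _ => 1)

theorem J_one_mul (hfin : AlmostInv h) (a b : G) :
    J h l 1 (a * b) (fun _ => 1) = J h l 1 a (fun _ => 1) + J h l 1 b (fun _ => 1) := by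
  rw [← J_chain hfin 1 a (a * b)]
  congr 1
  have h1 := J_inv (h := h) (l := l) a 1 b (fun _ => 1)
  rw [mul_one] at h1
  exact h1

theorem xco_cocycle (hfin : AlmostInv h) : xco h l ∈ Cocycle l G 1 := by
  rw [mem_cocycle_iff]
  funext g
  rw [diff_apply, Fin.sum_univ_two]
  have h1 : Fin.contractNth (0 : Fin 2) (· * ·) g 0 = g 0 * g 1 := rfl
  have h2 : Fin.contractNth (1 : Fin 2) (· * ·) g 0 = g 0 := rfl
  have h3 : (fun i : Fin 1 => g i.succ) 0 = g 1 := rfl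
  unfold xco
  rw [h1, h2, J_one_mul h hfin, Cochain.zero_apply]
  simp

theorem cup_xco (hfin : AlmostInv h) (c : Cocycle l G 4) (β : Cochain l S 3)
    (hβ : ∀ g : Fin 4 → S, diff l S 3 β g = (c : Cochain l G 4) (fun i => (g i : G))) :
    cup (c : Cochain l G 4) (xco h l) ∈ Coboundary l G 5 := by
  let F : Cochain l G 4 := fun g => bhom h (c : Cochain l G 4) β 1 (g 0) (g 0 * g 1)
    (g 0 * g 1 * g 2) (g 0 * g 1 * g 2 * g 3)
  have hF : ∀ g, F g = bhom h (c : Cochain l G 4) β 1 (g 0) (g 0 * g 1)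
    (g 0 * g 1 * g 2) (g 0 * g 1 * g 2 * g 3) := fun g => rfl
  refine ⟨F, ?_⟩
  funext g
  obtain ⟨g1, g2, g3, g4, g5, rfl⟩ : ∃ g1 g2 g3 g4 g5 : G, g = ![g1, g2, g3, g4, g5] :=
    ⟨g 0, g 1, g 2, g 3, g 4, by funext i; fin_cases i <;> rfl⟩
  rw [diff4]
  have hc : cup (c : Cochain l G 4) (xco h l) ![g1, g2, g3, g4, g5] =
      (c : Cochain l G 4) ![g1, g2, g3, g4] * J h l 1 g5 (fun _ => 1) := by
    have e1 : (fun i : Fin 4 => (![g1, g2, g3, g4, g5] : Fin 5 → G) (Fin.castAdd 1 i)) =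
        ![g1, g2, g3, g4] := by
      funext i
      fin_cases i <;> rfl
    change (c : Cochain l G 4) (fun i : Fin 4 => (![g1, g2, g3, g4, g5] : Fin 5 → G)
      (Fin.castAdd 1 i)) * J h l 1 g5 (fun _ => 1) = _
    rw [e1]
  rw [hc]
  simp only [hF, Matrix.cons_val_zero, Matrix.cons_val_one, Matrix.cons_val]
  have e0 : bhom h (c : Cochain l G 4) β 1 g2 (g2 * g3) (g2 * g3 * g4) (g2 * g3 * g4 * g5) =
      bhom h (c : Cochain l G 4) β g1 (g1 * g2) (g1 * g2 * g3) (g1 * g2 * g3 * g4)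
        (g1 * g2 * g3 * g4 * g5) := by
    rw [← bhom_inv h (c : Cochain l G 4) β g1]
    simp [mul_assoc]
  rw [e0]
  have key : ∀ x0 x1 x2 x3 x4 x5 : G,
      bhom h (c : Cochain l G 4) β x1 x2 x3 x4 x5 - bhom h (c : Cochain l G 4) β x0 x2 x3 x4 x5 +
      bhom h (c : Cochain l G 4) β x0 x1 x3 x4 x5 - bhom h (c : Cochain l G 4) β x0 x1 x2 x4 x5 +
      bhom h (c : Cochain l G 4) β x0 x1 x2 x3 x5 - bhom h (c : Cochain l G 4) β x0 x1 x2 x3 x4 =
      C5 (c : Cochain l G 4) x0 x1 x2 x3 x4 * J h l x4 x5 (fun _ => 1) := by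
    intro x0 x1 x2 x3 x4 x5
    unfold bhom
    have k1 := J_chain hfin x3 x4 x5 (fun y => bh (c : Cochain l G 4) β (y.out⁻¹ * x0)
      (y.out⁻¹ * x1) (y.out⁻¹ * x2) (y.out⁻¹ * x3))
    have k2 : J h l x4 x5 (fun y => C5 (c : Cochain l G 4) x0 x1 x2 x3 x4 * 1) =
        C5 (c : Cochain l G 4) x0 x1 x2 x3 x4 * J h l x4 x5 (fun _ => 1) :=
      J_mul hfin x4 x5 _ _
    have k3 : (fun y : G ⧸ S => C5 (c : Cochain l G 4) x0 x1 x2 x3 x4 * 1) = fun y : G ⧸ S =>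
        (((bh (c : Cochain l G 4) β (y.out⁻¹ * x1) (y.out⁻¹ * x2) (y.out⁻¹ * x3) (y.out⁻¹ * x4) +
        (-1) * bh (c : Cochain l G 4) β (y.out⁻¹ * x0) (y.out⁻¹ * x2) (y.out⁻¹ * x3)
          (y.out⁻¹ * x4)) +
        bh (c : Cochain l G 4) β (y.out⁻¹ * x0) (y.out⁻¹ * x1) (y.out⁻¹ * x3) (y.out⁻¹ * x4)) +
        (-1) * bh (c : Cochain l G 4) β (y.out⁻¹ * x0) (y.out⁻¹ * x1) (y.out⁻¹ * x2)
          (y.out⁻¹ * x4)) +
        bh (c : Cochain l G 4) β (y.out⁻¹ * x0) (y.out⁻¹ * x1) (y.out⁻¹ * x2)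
          (y.out⁻¹ * x3) := by
      funext y
      have h1 := bh_diff c β hβ (y.out⁻¹ * x0) (y.out⁻¹ * x1) (y.out⁻¹ * x2) (y.out⁻¹ * x3)
        (y.out⁻¹ * x4)
      rw [C5_inv] at h1
      linear_combination -h1
    rw [k3] at k2
    rw [J_add hfin, J_add hfin, J_add hfin, J_add hfin, J_mul hfin, J_mul hfin] at k2
    linear_combination k2 - k1
  have h1 := key 1 g1 (g1 * g2) (g1 * g2 * g3) (g1 * g2 * g3 * g4) (g1 * g2 * g3 * g4 * g5)
  have h2 : C5 (c : Cochain l G 4) 1 g1 (g1 * g2) (g1 * g2 * g3) (g1 * g2 * g3 * g4) =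
      (c : Cochain l G 4) ![g1, g2, g3, g4] := by
    simp [C5, mul_assoc]
  have h3 : J h l (g1 * g2 * g3 * g4) (g1 * g2 * g3 * g4 * g5) (fun _ => 1) =
      J h l 1 g5 (fun _ => 1) := by
    have := J_inv (h := h) (l := l) (g1 * g2 * g3 * g4) 1 g5 (fun _ => 1)
    rw [mul_one] at this
    exact this
  rw [h2, h3] at h1
  rw [← h1]
  simp only [mul_assoc]

end main

end Pool.Agent.TH17.Coh
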