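import Pool.Agent.TH17.Edge
import Pool.Agent.TH17.Torsion

set_option autoImplicit false

open Polynomial IsDedekindDomain WithZero
open scoped MatrixGroups

namespace Pool.Agent.TH17.FF

section grp

variable {k : Type} [Field k] {P : HeightOneSpectrum k[X]} {p : k[X]}

/-- the matrix over the field of a matrix over the ring -/
noncomputable def mat (g : GL (Fin 2) (OKS k {some P})) : Matrix (Fin 2) (Fin 2) (RatFunc k) :=
  (g : Matrix (Fin 2) (Fin 2) (OKS k {some P})).map (OKS k {some P}).subtype

theorem mat_apply (g : GL (Fin 2) (OKS k {some P})) (i j : Fin 2) :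
    mat g i j = ((g : Matrix (Fin 2) (Fin 2) (OKS k {some P})) i j : RatFunc k) := rfl

theorem mat_mem (g : GL (Fin 2) (OKS k {some P})) (i j : Fin 2) :
    mat g i j ∈ OKS k {some P} :=
  ((g : Matrix (Fin 2) (Fin 2) (OKS k {some P})) i j).2

theorem mat_mul (g h : GL (Fin 2) (OKS k {some P})) : mat (g * h) = mat g * mat h := by
  unfold mat
  rw [Units.val_mul, Matrix.map_mul]

theorem mat_one : mat (1 : GL (Fin 2) (OKS k {some P})) = 1 := by
  unfold mat
  rw [Units.val_one]
  exact Matrix.map_one _ (map_zero _) (map_one _)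

theorem mat_injective : Function.Injective (mat : GL (Fin 2) (OKS k {some P}) → _) := by
  intro g h hgh
  apply Units.ext
  ext i j
  exact congrFun (congrFun hgh i) j

theorem val_unit (hP : P.asIdeal = Ideal.span {p}) (hp : p ≠ 0) (u : (OKS k {some P})ˣ) :
    P.valuation (RatFunc k) ((u : OKS k {some P}) : RatFunc k) = 1 := by
  have h1 : ∀ w : (OKS k {some P})ˣ, P.valuation (RatFunc k) ((w : OKS k {some P}) : RatFunc k) ≤ 1 →
      P.valuation (RatFunc k) ((w : OKS k {some P}) : RatFunc k) = 1 := by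
    intro w hw
    obtain ⟨c, hc⟩ := exists_const hP hp _ (w : OKS k {some P}).2 hw
    have hc0 : c ≠ 0 := by
      rintro rfl
      have : ((w : OKS k {some P}) : RatFunc k) = 0 := by rw [hc]; simp
      have h2 : (w : OKS k {some P}) = 0 := Subtype.ext this
      exact w.ne_zero h2
    have h3 := HeightOneSpectrum.valuation_le_one (K := RatFunc k) P (Polynomial.C c)
    have h4 := HeightOneSpectrum.valuation_le_one (K := RatFunc k) P (Polynomial.C c⁻¹)
    have h5 : P.valuation (RatFunc k) (algebraMap k[X] (RatFunc k) (Polynomial.C c)) *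
        P.valuation (RatFunc k) (algebraMap k[X] (RatFunc k) (Polynomial.C c⁻¹)) = 1 := by
      rw [← map_mul, ← map_mul, ← Polynomial.C_mul, mul_inv_cancel₀ hc0]
      simp
    rw [hc, ← RatFunc.algebraMap_C]
    refine le_antisymm h3 ?_
    rw [← h5]
    calc _ ≤ P.valuation (RatFunc k) (algebraMap k[X] (RatFunc k) (Polynomial.C c)) * 1 := by
          gcongr
      _ = _ := mul_one _
  rcases le_total (P.valuation (RatFunc k) ((u : OKS k {some P}) : RatFunc k)) 1 with h | h
  · exact h1 u h
  · have h2 : ((u : OKS k {some P}) : RatFunc k) *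
        (((u⁻¹ : (OKS k {some P})ˣ) : OKS k {some P}) : RatFunc k) = 1 := by
      have : (u : OKS k {some P}) * ((u⁻¹ : (OKS k {some P})ˣ) : OKS k {some P}) = 1 := by simp
      exact congrArg Subtype.val this
    have h3 : P.valuation (RatFunc k) ((u : OKS k {some P}) : RatFunc k) *
        P.valuation (RatFunc k) (((u⁻¹ : (OKS k {some P})ˣ) : OKS k {some P}) : RatFunc k) = 1 := by
      rw [← map_mul, h2, map_one]
    have h4 : P.valuation (RatFunc k)
        (((u⁻¹ : (OKS k {some P})ˣ) : OKS k {some P}) : RatFunc k) ≤ 1 := by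
      rw [← h3]
      calc _ = 1 * P.valuation (RatFunc k)
            (((u⁻¹ : (OKS k {some P})ˣ) : OKS k {some P}) : RatFunc k) := (one_mul _).symm
        _ ≤ _ := by gcongr
    have h5 := h1 u⁻¹ h4
    rw [h5, mul_one] at h3
    exact h3

theorem val_det (hP : P.asIdeal = Ideal.span {p}) (hp : p ≠ 0)
    (g : GL (Fin 2) (OKS k {some P})) :
    P.valuation (RatFunc k) (mat g 0 0 * mat g 1 1 - mat g 0 1 * mat g 1 0) = 1 := by
  have h1 := val_unit hP hp (Matrix.GeneralLinearGroup.det g)
  have h2 : (((Matrix.GeneralLinearGroup.det g : (OKS k {some P})ˣ) : OKS k {some P}) :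
      RatFunc k) = mat g 0 0 * mat g 1 1 - mat g 0 1 * mat g 1 0 := by
    rw [Matrix.GeneralLinearGroup.val_det_apply, Matrix.det_fin_two]
    rfl
  rwa [h2] at h1

/-- the embedding of the constants in the ring -/
noncomputable def constHom (k : Type) [Field k] (P : HeightOneSpectrum k[X]) :
    k →+* OKS k {some P} :=
  (RatFunc.C : k →+* RatFunc k).codRestrict (OKS k {some P}) (fun c => const_mem c)

/-- the scalar matrices with entries in `k` -/
noncomputable def sc (k : Type) [Field k] (P : HeightOneSpectrum k[X]) :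
    kˣ →* GL (Fin 2) (OKS k {some P}) :=
  (Units.map ((Matrix.scalar (Fin 2) : OKS k {some P} →+* _) : OKS k {some P} →* _)).comp
    (Units.map ((constHom k P : k →+* _) : k →* _))

theorem mat_sc (c : kˣ) : mat (sc k P c) = Matrix.scalar (Fin 2) (RatFunc.C (c : k)) := by
  ext i j
  rw [mat_apply]
  fin_cases i <;> fin_cases j <;> simp [sc, constHom]

theorem act_sc (c : kˣ) (g : GL (Fin 2) (OKS k {some P})) (w : RatFunc k × RatFunc k) :
    act (mat (g * sc k P c)) w =
      (RatFunc.C (c : k) * (act (mat g) w).1, RatFunc.C (c : k) * (act (mat g) w).2) := by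
  rw [mat_mul, act_mul, mat_sc]
  simp only [act]
  simp
  constructor <;> ring

theorem val_C (c : kˣ) : P.valuation (RatFunc k) (RatFunc.C (c : k)) = 1 := by
  have h3 : ∀ d : k, P.valuation (RatFunc k) (RatFunc.C d) ≤ 1 := by
    intro d
    rw [← RatFunc.algebraMap_C]
    exact HeightOneSpectrum.valuation_le_one (K := RatFunc k) P (Polynomial.C d)
  have h5 : P.valuation (RatFunc k) (RatFunc.C (c : k)) *
      P.valuation (RatFunc k) (RatFunc.C ((c⁻¹ : kˣ) : k)) = 1 := by
    rw [← map_mul, ← map_mul]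
    simp
  refine le_antisymm (h3 _) ?_
  rw [← h5]
  calc _ ≤ P.valuation (RatFunc k) (RatFunc.C (c : k)) * 1 := by
        gcongr
        exact h3 _
    _ = _ := mul_one _

/-- the first column vector of the base edge -/
noncomputable def u1 (t : k[X]) : RatFunc k × RatFunc k := (algebraMap k[X] (RatFunc k) t, 1)

/-- the second column vector of the base edge -/
noncomputable def u2 (k : Type) [Field k] : RatFunc k × RatFunc k := (1, 0)

/-- orientation of the edge of `g` with respect to the base lattice -/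
def P1 (t : k[X]) (g : GL (Fin 2) (OKS k {some P})) : Prop :=
  nrm (P.valuation (RatFunc k)) (act (mat g) (u1 t)) <
    nrm (P.valuation (RatFunc k)) (act (mat g) (u2 k))

/-- orientation of the edge of `g` with respect to the neighbour of the base lattice given by
`t'` -/
def P2 (t t' : k[X]) (g : GL (Fin 2) (OKS k {some P})) : Prop :=
  nrmT (P.valuation (RatFunc k)) (algebraMap k[X] (RatFunc k) t') (act (mat g) (u1 t)) <
    nrmT (P.valuation (RatFunc k)) (algebraMap k[X] (RatFunc k) t') (act (mat g) (u2 k))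

theorem val_poly_le (t : k[X]) :
    P.valuation (RatFunc k) (algebraMap k[X] (RatFunc k) t) ≤ 1 :=
  HeightOneSpectrum.valuation_le_one _ _

/-- If the two orientations differ, then the matrix is constant and moves `t` to `t'` modulo
`p`. -/
theorem const_of_ne (hP : P.asIdeal = Ideal.span {p}) (hp : p ≠ 0) (t t' : k[X])
    (g : GL (Fin 2) (OKS k {some P})) (hne : ¬ (P1 t g ↔ P2 t t' g)) :
    ∃ a b c d : k, mat g 0 0 = RatFunc.C a ∧ mat g 0 1 = RatFunc.C b ∧ mat g 1 0 = RatFunc.C c ∧
      mat g 1 1 = RatFunc.C d ∧ a * d - b * c ≠ 0 ∧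
      p ∣ (C a * t + C b) - t' * (C c * t + C d) := by
  set v := P.valuation (RatFunc k) with hv
  set T := algebraMap k[X] (RatFunc k) t with hT
  set T' := algebraMap k[X] (RatFunc k) t' with hT'
  have hvT : v T ≤ 1 := val_poly_le t
  have hvT' : v T' ≤ 1 := val_poly_le t'
  have e1 : act (mat g) (u1 t) = (mat g 0 0 * T + mat g 0 1, mat g 1 0 * T + mat g 1 1) := by
    simp [act, u1, hT]
  have e2 : act (mat g) (u2 k) = (mat g 0 0, mat g 1 0) := by
    simp [act, u2]
  have hd := val_det hP hp g
  obtain ⟨h1, h2, h3, h4⟩ := edge_lemma v (mat g 1 0 * T + mat g 1 1)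
    (mat g 0 0 * T + mat g 0 1 - T' * (mat g 1 0 * T + mat g 1 1)) (mat g 1 0)
    (mat g 0 0 - T' * mat g 1 0) (by
      rw [← hd]
      congr 1
      ring) (by
      intro h
      apply hne
      unfold P1 P2
      rw [nrm_eq (v := P.valuation (RatFunc k)) T' hvT', nrm_eq (v := P.valuation (RatFunc k)) T' hvT',
        e1, e2]
      exact h)
  -- the entries are integral at `P`
  have hmul : ∀ x y : RatFunc k, v x ≤ 1 → v y ≤ 1 → v (x * y) ≤ 1 := by
    intro x y hx hy
    rw [map_mul]
    exact mul_le_one' hx hy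
  have i10 : v (mat g 1 0) ≤ 1 := h3
  have i00 : v (mat g 0 0) ≤ 1 := by
    have : mat g 0 0 = (mat g 0 0 - T' * mat g 1 0) + T' * mat g 1 0 := by ring
    rw [this]
    exact (Valuation.map_add _ _ _).trans (max_le h4.le (hmul _ _ hvT' i10))
  have i11 : v (mat g 1 1) ≤ 1 := by
    have : mat g 1 1 = (mat g 1 0 * T + mat g 1 1) - mat g 1 0 * T := by ring
    rw [this]
    exact (Valuation.map_sub _ _ _).trans (max_le h1.le (hmul _ _ i10 hvT))
  have i01 : v (mat g 0 1) ≤ 1 := by
    have : mat g 0 1 = ((mat g 0 0 * T + mat g 0 1 - T' * (mat g 1 0 * T + mat g 1 1)) +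
      T' * (mat g 1 0 * T + mat g 1 1)) - mat g 0 0 * T := by ring
    rw [this]
    refine (Valuation.map_sub _ _ _).trans (max_le ?_ (hmul _ _ i00 hvT))
    exact (Valuation.map_add _ _ _).trans (max_le h2.le (hmul _ _ hvT' h1.le))
  obtain ⟨a, ha⟩ := exists_const hP hp _ (mat_mem g 0 0) i00
  obtain ⟨b, hb⟩ := exists_const hP hp _ (mat_mem g 0 1) i01
  obtain ⟨c, hc⟩ := exists_const hP hp _ (mat_mem g 1 0) i10
  obtain ⟨d, hdd⟩ := exists_const hP hp _ (mat_mem g 1 1) i11
  refine ⟨a, b, c, d, ha, hb, hc, hdd, ?_, ?_⟩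
  · intro h0
    rw [ha, hb, hc, hdd, ← map_mul, ← map_mul, ← map_sub, h0, map_zero, map_zero] at hd
    exact zero_ne_one hd
  · have h5 : algebraMap k[X] (RatFunc k) ((C a * t + C b) - t' * (C c * t + C d)) =
        mat g 0 0 * T + mat g 0 1 - T' * (mat g 1 0 * T + mat g 1 1) := by
      rw [ha, hb, hc, hdd]
      simp [hT, hT']
    rw [← h5] at h2
    have h6 := (HeightOneSpectrum.valuation_lt_one_iff_mem (K := RatFunc k) P _).1 h2
    rw [hP, Ideal.mem_span_singleton] at h6
    exact h6

end grp

end Pool.Agent.TH17.FF
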