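import Pool.Agent.TH17.Grp

set_option autoImplicit false

open Polynomial IsDedekindDomain WithZero
open scoped MatrixGroups

namespace Pool.Agent.TH17.FF

/-- The data of a loop: two edges at the base vertex, not equivalent under the constant matrices,
the first one with trivial stabiliser, and such that the matrix joining them is defined over the
ring. -/
structure LoopData {k : Type} [Field k] (p t t' : k[X]) : Prop where
  degree_one : (t' * (t' - t)).natDegree ≤ p.natDegree
  degree_two : ((t' - t) * (p - t * t')).natDegree ≤ p.natDegree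
  degree_three : (t' - t).natDegree ≤ p.natDegree
  degree_four : (t * (t' - t)).natDegree ≤ p.natDegree
  not_dvd : ¬ p ∣ t' - t
  not_equiv : ∀ a b c d : k, a * d - b * c ≠ 0 → ¬ p ∣ (C a * t + C b) - t' * (C c * t + C d)
  stabilizer : ∀ a b c d : k, a * d - b * c ≠ 0 → p ∣ (C a * t + C b) - t * (C c * t + C d) →
    b = 0 ∧ c = 0 ∧ a = d

section loop

variable {k : Type} [Field k] {P : HeightOneSpectrum k[X]} {p t t' : k[X]}

/-- the matrix of the loop -/
noncomputable def loopMat (hP : P.asIdeal = Ideal.span {p}) (hp : p ≠ 0) (D : LoopData p t t') :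
    Matrix (Fin 2) (Fin 2) (OKS k {some P}) :=
  !![⟨algebraMap k[X] (RatFunc k) (p + t' * (t' - t)) / algebraMap k[X] (RatFunc k) p,
      mem_of_num hP hp _ ((natDegree_add_le _ _).trans (max_le le_rfl D.degree_one))⟩,
    ⟨algebraMap k[X] (RatFunc k) ((t' - t) * (p - t * t')) / algebraMap k[X] (RatFunc k) p,
      mem_of_num hP hp _ D.degree_two⟩;
    ⟨algebraMap k[X] (RatFunc k) (t' - t) / algebraMap k[X] (RatFunc k) p,
      mem_of_num hP hp _ D.degree_three⟩,
    ⟨algebraMap k[X] (RatFunc k) (p - t * (t' - t)) / algebraMap k[X] (RatFunc k) p,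
      mem_of_num hP hp _ ((natDegree_sub_le _ _).trans (max_le le_rfl D.degree_four))⟩]

theorem loopMat_det (hP : P.asIdeal = Ideal.span {p}) (hp : p ≠ 0) (D : LoopData p t t') :
    (loopMat hP hp D).det = 1 := by
  have hp' : algebraMap k[X] (RatFunc k) p ≠ 0 := by
    simpa using hp
  apply Subtype.ext
  unfold loopMat
  rw [Matrix.det_fin_two_of]
  change (algebraMap k[X] (RatFunc k) (p + t' * (t' - t)) / algebraMap k[X] (RatFunc k) p) *
    (algebraMap k[X] (RatFunc k) (p - t * (t' - t)) / algebraMap k[X] (RatFunc k) p) -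
    (algebraMap k[X] (RatFunc k) ((t' - t) * (p - t * t')) / algebraMap k[X] (RatFunc k) p) *
    (algebraMap k[X] (RatFunc k) (t' - t) / algebraMap k[X] (RatFunc k) p) = 1
  simp only [map_add, map_sub, map_mul]
  field_simp
  ring

/-- the element of the group defined by the loop -/
noncomputable def loopEl (hP : P.asIdeal = Ideal.span {p}) (hp : p ≠ 0) (D : LoopData p t t') :
    GL (Fin 2) (OKS k {some P}) :=
  Matrix.SpecialLinearGroup.toGL ⟨loopMat hP hp D, loopMat_det hP hp D⟩

theorem act_loopEl (hP : P.asIdeal = Ideal.span {p}) (hp : p ≠ 0) (D : LoopData p t t')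
    (w : RatFunc k × RatFunc k) :
    (act (mat (loopEl hP hp D)) w).2 = w.2 + algebraMap k[X] (RatFunc k) (t' - t) /
        algebraMap k[X] (RatFunc k) p * (w.1 - algebraMap k[X] (RatFunc k) t * w.2) ∧
    (act (mat (loopEl hP hp D)) w).1 - algebraMap k[X] (RatFunc k) t' *
      (act (mat (loopEl hP hp D)) w).2 = w.1 - algebraMap k[X] (RatFunc k) t * w.2 := by
  have hp' : algebraMap k[X] (RatFunc k) p ≠ 0 := by
    simpa using hp
  have e00 : mat (loopEl hP hp D) 0 0 =
    algebraMap k[X] (RatFunc k) (p + t' * (t' - t)) / algebraMap k[X] (RatFunc k) p := rfl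
  have e01 : mat (loopEl hP hp D) 0 1 =
    algebraMap k[X] (RatFunc k) ((t' - t) * (p - t * t')) / algebraMap k[X] (RatFunc k) p := rfl
  have e10 : mat (loopEl hP hp D) 1 0 =
    algebraMap k[X] (RatFunc k) (t' - t) / algebraMap k[X] (RatFunc k) p := rfl
  have e11 : mat (loopEl hP hp D) 1 1 =
    algebraMap k[X] (RatFunc k) (p - t * (t' - t)) / algebraMap k[X] (RatFunc k) p := rfl
  simp only [act]
  rw [e00, e01, e10, e11]
  simp only [map_add, map_sub, map_mul]
  constructor
  · field_simp
    ring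
  · field_simp
    ring

theorem nrmT_loopEl (hP : P.asIdeal = Ideal.span {p}) (hp : p ≠ 0) (D : LoopData p t t')
    (w : RatFunc k × RatFunc k) :
    nrmT (P.valuation (RatFunc k)) (algebraMap k[X] (RatFunc k) t')
      (act (mat (loopEl hP hp D)) w) =
    nrmT (P.valuation (RatFunc k)) (algebraMap k[X] (RatFunc k) t) w := by
  obtain ⟨h1, h2⟩ := act_loopEl hP hp D w
  unfold nrmT
  rw [h2, h1]
  set v := P.valuation (RatFunc k)
  set b := w.1 - algebraMap k[X] (RatFunc k) t * w.2
  set e := algebraMap k[X] (RatFunc k) (t' - t) / algebraMap k[X] (RatFunc k) p * b with he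
  have h3 : v e ≤ exp 1 * v b := by
    rw [he, map_mul, map_div₀, val_p hP hp]
    gcongr
    rw [div_le_iff₀ (by simp), ← exp_add]
    simpa using val_poly_le (P := P) (t' - t)
  apply le_antisymm
  · apply max_le
    · exact (Valuation.map_add _ _ _).trans (max_le_max le_rfl h3)
    · exact le_max_right _ _
  · apply max_le
    · have h4 : w.2 = (w.2 + e) - e := by ring
      calc v w.2 = v ((w.2 + e) - e) := by rw [← h4]
        _ ≤ max (v (w.2 + e)) (v e) := Valuation.map_sub _ _ _
        _ ≤ max (v (w.2 + e)) (exp 1 * v b) := max_le_max le_rfl h3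
    · exact le_max_right _ _

theorem P2_loop (hP : P.asIdeal = Ideal.span {p}) (hp : p ≠ 0) (D : LoopData p t t')
    (g : GL (Fin 2) (OKS k {some P})) :
    P2 t t' (loopEl hP hp D * g) ↔ P2 t t g := by
  unfold P2
  rw [mat_mul, act_mul, act_mul, nrmT_loopEl, nrmT_loopEl]

/-- the edge of `g` separates the base lattice and its translate by the loop element only if it is
the translate of the base edge by this element -/
theorem eq_of_change (hP : P.asIdeal = Ideal.span {p}) (hp : p ≠ 0) (D : LoopData p t t')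
    (g : GL (Fin 2) (OKS k {some P})) (h : ¬ (P1 t ((loopEl hP hp D)⁻¹ * g) ↔ P1 t g)) :
    ∃ c : kˣ, g = loopEl hP hp D * sc k P c := by
  have h1 : P1 t g ↔ P2 t t' g := by
    by_contra hne
    obtain ⟨a, b, c, d, -, -, -, -, hdet, hdvd⟩ := const_of_ne hP hp t t' g hne
    exact D.not_equiv a b c d hdet hdvd
  have h2 : P2 t t' g ↔ P2 t t ((loopEl hP hp D)⁻¹ * g) := by
    rw [← P2_loop hP hp D, mul_inv_cancel_left]
  have h3 : ¬ (P1 t ((loopEl hP hp D)⁻¹ * g) ↔ P2 t t ((loopEl hP hp D)⁻¹ * g)) := by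
    intro h4
    exact h (h4.trans (h2.symm.trans h1.symm))
  obtain ⟨a, b, c, d, ha, hb, hc, hd, hdet, hdvd⟩ := const_of_ne hP hp t t _ h3
  obtain ⟨rfl, rfl, rfl⟩ := D.stabilizer a b c d hdet hdvd
  have ha0 : a ≠ 0 := by
    rintro rfl
    simp at hdet
  refine ⟨Units.mk0 a ha0, ?_⟩
  rw [← inv_mul_eq_iff_eq_mul]
  apply mat_injective
  rw [mat_sc]
  ext i j
  fin_cases i <;> fin_cases j
  · simpa using ha
  · simpa using hb
  · simpa using hc
  · simpa using hd

theorem not_P1_one (t : k[X]) : ¬ P1 (P := P) t 1 := by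
  unfold P1
  rw [mat_one, act_one, act_one, not_lt]
  unfold nrm u1 u2
  simp

theorem P1_loopEl (hP : P.asIdeal = Ideal.span {p}) (hp : p ≠ 0) (D : LoopData p t t') :
    P1 t (loopEl hP hp D) := by
  unfold P1
  obtain ⟨h1, h2⟩ := act_loopEl hP hp D (u1 t)
  obtain ⟨h3, h4⟩ := act_loopEl hP hp D (u2 k)
  have e1 : (u1 t).1 - algebraMap k[X] (RatFunc k) t * (u1 t).2 = 0 := by simp [u1]
  have e2 : (u2 k).1 - algebraMap k[X] (RatFunc k) t * (u2 k).2 = 1 := by simp [u2]
  have e3 : (u1 t).2 = 1 := rfl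
  have e4 : (u2 k).2 = 0 := rfl
  rw [e1, mul_zero, add_zero, e3] at h1
  rw [e1, h1, mul_one, sub_eq_zero] at h2
  rw [e2, e4, mul_one, zero_add] at h3
  have h5 : nrm (P.valuation (RatFunc k)) (act (mat (loopEl hP hp D)) (u1 t)) = 1 := by
    unfold nrm
    rw [h1, h2, map_one]
    exact max_eq_right (val_poly_le t')
  have h6 : P.valuation (RatFunc k) (act (mat (loopEl hP hp D)) (u2 k)).2 = exp 1 := by
    rw [h3, map_div₀, val_p hP hp]
    have h7 : P.valuation (RatFunc k) (algebraMap k[X] (RatFunc k) (t' - t)) = 1 := by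
      rw [HeightOneSpectrum.valuation_eq_one_iff_notMem, hP, Ideal.mem_span_singleton]
      exact D.not_dvd
    rw [h7, exp_neg, one_div, inv_inv]
  rw [h5]
  refine lt_of_lt_of_le ?_ (le_max_right _ _)
  rw [h6, ← exp_zero, exp_lt_exp]
  norm_num

end loop

end Pool.Agent.TH17.FF
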