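import Mathlib

set_option autoImplicit false

open Polynomial IsDedekindDomain WithZero

namespace Pool.Agent.TH17.FF

open scoped Classical in
/-- The normalised (multiplicative) valuations of the places of the rational function field `k(t)`:
the places are the nonzero prime ideals `Q` of `k[t]`, encoded as `some Q`, and the place at
infinity, encoded as `none`. -/
noncomputable def placeVal (k : Type) [Field k] :
    Option (HeightOneSpectrum k[X]) → Valuation (RatFunc k) ℤᵐ⁰
  | some Q => Q.valuation (RatFunc k)
  | none => RatFunc.inftyValuation k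

/-- For `K = k(t)` and a set `S` of places of `K`, the ring `𝒪_{K,S}` of the elements of `K` which
are regular at every place outside `S`. -/
noncomputable def OKS (k : Type) [Field k] (S : Set (Option (HeightOneSpectrum k[X]))) :
    Subring (RatFunc k) where
  carrier := {x | ∀ w, w ∉ S → placeVal k w x ≤ 1}
  mul_mem' := by
    intro a b ha hb w hw
    rw [map_mul]
    exact mul_le_one' (ha w hw) (hb w hw)
  one_mem' := by
    intro w _
    rw [map_one]
  add_mem' := by
    intro a b ha hb w hw
    exact (Valuation.map_add _ a b).trans (max_le (ha w hw) (hb w hw))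
  zero_mem' := by
    intro w _
    rw [map_zero]
    exact zero_le_one
  neg_mem' := by
    intro a ha w hw
    rw [Valuation.map_neg]
    exact ha w hw

variable {k : Type} [Field k] {P : HeightOneSpectrum k[X]} {p : k[X]}

theorem mem_OKS_iff (x : RatFunc k) :
    x ∈ OKS k {some P} ↔ (∀ Q : HeightOneSpectrum k[X], Q ≠ P → Q.valuation (RatFunc k) x ≤ 1) ∧
      (x = 0 ∨ x.intDegree ≤ 0) := by
  classical
  constructor
  · intro h
    refine ⟨fun Q hQ => h (some Q) (by simpa using hQ), ?_⟩
    have h1 : RatFunc.inftyValuation k x ≤ 1 := by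
      have h2 := h none (by simp)
      unfold placeVal at h2
      convert h2
    by_cases hx : x = 0
    · exact Or.inl hx
    · right
      rw [RatFunc.inftyValuation_apply, RatFunc.inftyValuation_of_nonzero k hx, ← exp_zero,
        exp_le_exp] at h1
      exact h1
  · rintro ⟨h1, h2⟩ w hw
    cases w with
    | some Q => exact h1 Q (by simpa using hw)
    | none =>
      have h3 : RatFunc.inftyValuation k x ≤ 1 := by
        rcases h2 with h2 | h2
        · rw [h2, map_zero]
          exact zero_le_one
        · by_cases hx : x = 0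
          · rw [hx, map_zero]
            exact zero_le_one
          rw [RatFunc.inftyValuation_apply, RatFunc.inftyValuation_of_nonzero k hx, ← exp_zero,
            exp_le_exp]
          exact h2
      unfold placeVal
      convert h3

theorem val_p (hP : P.asIdeal = Ideal.span {p}) (hp : p ≠ 0) :
    P.valuation (RatFunc k) (algebraMap k[X] (RatFunc k) p) = exp (-1 : ℤ) := by
  rw [HeightOneSpectrum.valuation_of_algebraMap, P.intValuation_singleton hp hP]

theorem val_p_other (hP : P.asIdeal = Ideal.span {p}) (Q : HeightOneSpectrum k[X]) (hQ : Q ≠ P) :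
    Q.valuation (RatFunc k) (algebraMap k[X] (RatFunc k) p) = 1 := by
  rw [HeightOneSpectrum.valuation_eq_one_iff_notMem]
  intro h
  apply hQ
  have h1 : P.asIdeal ≤ Q.asIdeal := by
    rw [hP, Ideal.span_singleton_le_iff_mem]
    exact h
  have h2 := (P.isMaximal.eq_of_le Q.isPrime.ne_top h1)
  exact HeightOneSpectrum.ext h2.symm

/-- elements with bounded pole at `P` -/
theorem exists_num (hP : P.asIdeal = Ideal.span {p}) (hp : p ≠ 0) (x : RatFunc k)
    (hx : x ∈ OKS k {some P}) (m : ℕ) (hm : P.valuation (RatFunc k) x ≤ exp (m : ℤ)) :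
    ∃ f : k[X], f.natDegree ≤ m * p.natDegree ∧
      x * (algebraMap k[X] (RatFunc k) p) ^ m = algebraMap k[X] (RatFunc k) f := by
  rw [mem_OKS_iff] at hx
  have h1 : x * (algebraMap k[X] (RatFunc k) p) ^ m ∈ (algebraMap k[X] (RatFunc k)).range := by
    apply HeightOneSpectrum.mem_integers_of_valuation_le_one
    intro Q
    rw [map_mul, map_pow]
    by_cases hQ : Q = P
    · subst hQ
      rw [val_p hP hp]
      calc _ ≤ exp (m : ℤ) * exp (-1 : ℤ) ^ m := by gcongr
        _ = 1 := by
          rw [← exp_nsmul, ← exp_add]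
          simp
    · rw [val_p_other hP Q hQ, one_pow, mul_one]
      exact hx.1 Q hQ
  obtain ⟨f, hf⟩ := h1
  refine ⟨f, ?_, hf.symm⟩
  have hp' : algebraMap k[X] (RatFunc k) p ≠ 0 := by
    simpa using hp
  by_cases hx0 : x = 0
  · rw [hx0, zero_mul] at hf
    have : f = 0 := by simpa using hf
    rw [this]
    simp
  · have h2 := hx.2.resolve_left hx0
    have h3 : (algebraMap k[X] (RatFunc k) f).intDegree =
        x.intDegree + ((algebraMap k[X] (RatFunc k) p) ^ m).intDegree := by
      rw [hf, RatFunc.intDegree_mul hx0 (pow_ne_zero m hp')]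
    rw [← map_pow, RatFunc.intDegree_polynomial, RatFunc.intDegree_polynomial, natDegree_pow] at h3
    push_cast at h3
    have : (f.natDegree : ℤ) ≤ m * p.natDegree := by linarith
    exact_mod_cast this

/-- elements of the ring -/
theorem mem_of_num (hP : P.asIdeal = Ideal.span {p}) (hp : p ≠ 0) (f : k[X])
    (hf : f.natDegree ≤ p.natDegree) :
    algebraMap k[X] (RatFunc k) f / algebraMap k[X] (RatFunc k) p ∈ OKS k {some P} := by
  have hp' : algebraMap k[X] (RatFunc k) p ≠ 0 := by
    simpa using hp
  rw [mem_OKS_iff]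
  constructor
  · intro Q hQ
    rw [map_div₀, val_p_other hP Q hQ, div_one]
    exact HeightOneSpectrum.valuation_le_one _ _
  · by_cases hf0 : f = 0
    · left
      rw [hf0]
      simp
    · right
      have hf' : algebraMap k[X] (RatFunc k) f ≠ 0 := by
        simpa using hf0
      rw [RatFunc.intDegree_div hf' hp', RatFunc.intDegree_polynomial,
        RatFunc.intDegree_polynomial]
      have : (f.natDegree : ℤ) ≤ p.natDegree := by exact_mod_cast hf
      linarith

theorem const_mem (c : k) : (RatFunc.C c : RatFunc k) ∈ OKS k {some P} := by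
  rw [mem_OKS_iff]
  constructor
  · intro Q _
    have : (RatFunc.C c : RatFunc k) = algebraMap k[X] (RatFunc k) (Polynomial.C c) := by simp
    rw [this]
    exact HeightOneSpectrum.valuation_le_one _ _
  · right
    simp

theorem exists_const (hP : P.asIdeal = Ideal.span {p}) (hp : p ≠ 0) (x : RatFunc k)
    (hx : x ∈ OKS k {some P}) (hm : P.valuation (RatFunc k) x ≤ 1) :
    ∃ c : k, x = RatFunc.C c := by
  obtain ⟨f, hf, hxf⟩ := exists_num hP hp x hx 0 (by simpa using hm)
  rw [zero_mul, Nat.le_zero] at hf
  rw [eq_C_of_natDegree_eq_zero hf] at hxf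
  refine ⟨f.coeff 0, ?_⟩
  simpa using hxf

theorem finite_bounded [Finite k] (hP : P.asIdeal = Ideal.span {p}) (hp : p ≠ 0) (m : ℕ) :
    {x : RatFunc k | x ∈ OKS k {some P} ∧ P.valuation (RatFunc k) x ≤ exp (m : ℤ)}.Finite := by
  have hp' : (algebraMap k[X] (RatFunc k) p) ^ m ≠ 0 := by
    apply pow_ne_zero
    simpa using hp
  have h1 : {f : k[X] | f.natDegree ≤ m * p.natDegree}.Finite := by
    have h2 : {f : k[X] | f.natDegree ≤ m * p.natDegree} ⊆
        (Polynomial.degreeLT k (m * p.natDegree + 1) : Set k[X]) := by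
      intro f hf
      rw [SetLike.mem_coe, Polynomial.mem_degreeLT]
      exact lt_of_le_of_lt degree_le_natDegree (by exact_mod_cast Nat.lt_succ_of_le hf)
    refine Set.Finite.subset ?_ h2
    have h3 : Finite (Polynomial.degreeLT k (m * p.natDegree + 1)) :=
      Finite.of_equiv _ (Polynomial.degreeLTEquiv k (m * p.natDegree + 1)).toEquiv.symm
    exact Set.toFinite _
  refine (h1.image (fun f => algebraMap k[X] (RatFunc k) f /
    (algebraMap k[X] (RatFunc k) p) ^ m)).subset ?_
  rintro x ⟨hx, hm⟩
  obtain ⟨f, hf, hxf⟩ := exists_num hP hp x hx m hm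
  refine ⟨f, hf, ?_⟩
  simp only
  rw [← hxf, mul_div_assoc, div_self hp', mul_one]

end Pool.Agent.TH17.FF
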